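import Mathlib
import Pool.Agent.W97.MT.Defs

/-!
# The 2-part of the Birch and Swinnerton-Dyer formula for quadratic twists of `X_0(14)`

Definitions and the statements of the independent parts (helper700, problem MP_9c97e9_nt).

`E_M : Y² = X (X² + 13 M X + 128 M²)` is the quadratic twist by `M` of `X_0(14) = E_1`. For
`M = 1 mod 4` the equation `WM M` is a global minimal one (`M` squarefree and prime to `14`), with
`X = 4 (x - M)`, `Y = 4 (2 y + x + 1)`.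
-/

set_option autoImplicit false

open MeasureTheory

open scoped Classical

namespace Pool.Agent.Y700

open Pool.Agent.W97.MT (affCount ap IsGloballyMinimal)

/-- the minimal equation of the twist of `X_0(14)` by `M = 1 mod 4` -/
def WM (M : ℤ) : WeierstrassCurve ℤ :=
  ⟨1, (M - 1) / 4, 1, (9 * M ^ 2 - 1) / 2, -((23 * M ^ 3 + 1) / 4)⟩

/-! ### Real period -/

/-- `(2 y + a₁ x + a₃)²` as a function of `x` -/
noncomputable def psi (W : WeierstrassCurve ℤ) (x : ℝ) : ℝ :=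
  4 * x ^ 3 + W.b₂ * x ^ 2 + 2 * W.b₄ * x + W.b₆

/-- the real period `∫_{E(ℝ)} |ω|` of `ω = dx / (2 y + a₁ x + a₃)`: over every `x` with `psi x > 0`
there are two real points -/
noncomputable def Omega (W : WeierstrassCurve ℤ) : ℝ :=
  ∫ x in {x : ℝ | 0 < psi W x}, 2 / Real.sqrt (psi W x)

/-! ### Tamagawa numbers -/

/-- the points over `ℚ_p` -/
abbrev PtP (W : WeierstrassCurve ℤ) (p : ℕ) [Fact p.Prime] : Type :=
  (W.map (Int.castRingHom ℚ_[p])).toAffine.Point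

/-- `(x, y)` is integral and reduces to a singular point modulo `p`: both partial derivatives of
`y² + a₁ x y + a₃ y - x³ - a₂ x² - a₄ x - a₆` vanish modulo `p` -/
def SingRed (W : WeierstrassCurve ℤ) (p : ℕ) [Fact p.Prime] (x y : ℚ_[p]) : Prop :=
  ‖x‖ ≤ 1 ∧ ‖y‖ ≤ 1 ∧ ‖W.a₁ * y - (3 * x ^ 2 + 2 * W.a₂ * x + W.a₄)‖ < 1 ∧
    ‖2 * y + W.a₁ * x + W.a₃‖ < 1

/-- `E⁰(ℚ_p)`: the subgroup of the points with non-singular reduction (generated by them; see
`S_E0` for the equality) -/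
noncomputable def E0 (W : WeierstrassCurve ℤ) (p : ℕ) [Fact p.Prime] : AddSubgroup (PtP W p) :=
  AddSubgroup.closure {P | ∀ (x y : ℚ_[p]) (h), P = .some x y h → ¬ SingRed W p x y}

/-- the Tamagawa number `[E(ℚ_p) : E⁰(ℚ_p)]` -/
noncomputable def tam (W : WeierstrassCurve ℤ) (p : ℕ) [Fact p.Prime] : ℕ := (E0 W p).index

/-! ### Statements of the parts -/

/-- E0: the points with non-singular reduction form a subgroup.
(`P + Q + R = 0`, `P`, `Q` non-singular, `R = s` singular modulo `p`: the line meets the reduced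
curve with multiplicity at least two in `s`, and `P`, `Q` do not reduce to `s`.) -/
def S_E0 : Prop := ∀ (W : WeierstrassCurve ℤ) (p : ℕ) [Fact p.Prime] (P : PtP W p),
  P ∈ E0 W p ↔ ∀ (x y : ℚ_[p]) (h), P = .some x y h → ¬ SingRed W p x y

/-- TGOOD: good reduction -/
def S_TGOOD : Prop := ∀ (W : WeierstrassCurve ℤ) (p : ℕ) [Fact p.Prime], ¬ (p : ℤ) ∣ W.Δ →
  tam W p = 1

/-- TIN: type `I₀*`, one rational point of order two modulo `q`. (With `X = 4 (x - M)`, a point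
outside `E⁰` has `X = q X₁`, `Y = q² Y₁` and `X₁ ≡ 0`; translation by `T = (0, 0)` brings it to
`E⁰`: `X (P + T) X (P) = 128 M²`.) -/
def S_TIN : Prop := S_E0 → ∀ (M : ℤ) (q : ℕ) [Fact q.Prime], M % 4 = 1 → q ≠ 2 → q ≠ 7 →
  (q : ℤ) ∣ M → ¬ ((q : ℤ) ^ 2 ∣ M) → ¬ IsSquare (-7 : ZMod q) → tam (WM M) q = 2

/-- TSP: type `I₀*`, all the points of order two rational -/
def S_TSP : Prop := S_E0 → ∀ (M : ℤ) (q : ℕ) [Fact q.Prime], M % 4 = 1 → q ≠ 2 → q ≠ 7 →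
  (q : ℤ) ∣ M → ¬ ((q : ℤ) ^ 2 ∣ M) → IsSquare (-7 : ZMod q) → tam (WM M) q = 4

/-- T2: type `I₆` at `2`, split for `M = 5 mod 8` (then the number is `6`) and non-split for
`M = 1 mod 8` (then it is `2`). -/
def S_T2 : Prop := S_E0 → ∀ M : ℤ, M % 4 = 1 → padicValNat 2 (tam (WM M) 2) = 1

/-- T7: type `I₃` at `7`, the number is `3` or `1`. -/
def S_T7 : Prop := S_E0 → ∀ (_ : Fact (Nat.Prime 7)) (M : ℤ), M % 4 = 1 → ¬ (7 : ℤ) ∣ M → Odd (tam (WM M) 7)

/-- OMEGA: the real period of the twists in terms of the period lattice of `X_0(14)`. -/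
def S_OMEGA : Prop := ∀ (L : PeriodPair) (Op Om : ℝ), 0 < Op → 0 < Om →
  L.g₂ = -215 / 12 → L.g₃ = 5291 / 216 →
  (∀ w : ℂ, w ∈ L.lattice ↔ ∃ a b : ℤ, 2 ∣ a - b ∧ w = a * Op + b * Om * Complex.I) →
  ∀ M : ℤ, M % 4 = 1 → 0 < M → Omega (WM M) = 2 * Op / Real.sqrt M

/-- MIN: the equation is minimal. -/
def S_MIN : Prop := ∀ M : ℤ, M % 4 = 1 → Squarefree M → ¬ (7 : ℤ) ∣ M →
  IsGloballyMinimal (WM M) ∧ (WM M).Δ = -(2 ^ 6 * 7 ^ 3) * M ^ 6 ∧
  ∃ C : WeierstrassCurve.VariableChange ℚ,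
    C • ((WM M).map (Int.castRingHom ℚ)) = ⟨0, 13 * M, 0, 128 * (M : ℚ) ^ 2, 0⟩

/-- the hypotheses on the twist by `p m` (the same as `Pool.Agent.Y687.Hyp`) -/
structure Hy (m p : ℕ) : Prop where
  m4 : m % 4 = 1
  pp : p.Prime
  p8 : p % 8 = 1
  sqf : Squarefree (((p * m : ℕ)) : ℤ)
  pm : ¬ p ∣ m
  two : ∀ q : ℕ, q.Prime → q ∣ m → q ≠ 2 ∧ q ≠ 7 ∧ ¬ IsSquare (-7 : ZMod q) ∧ ¬ IsSquare (2 : ZMod q)
  p7 : p ≠ 7
  sev : IsSquare (-7 : ZMod p)
  root : ∀ x : ZMod p, x ^ 2 + 13 * (m : ZMod p) * x + 128 * (m : ZMod p) ^ 2 = 0 → ¬ IsSquare x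

/-- the condition at `p` on the class of `z` (the same as `Pool.Agent.Y668.PC`) -/
def PC (a b : ℤ) (p : ℕ) [Fact p.Prime] (z : ℤ) : Prop :=
  ∃ x y : ℚ_[p], y ≠ 0 ∧ y ^ 2 = x ^ 3 + a * x ^ 2 + b * x ∧ IsSquare (x * z)

/-- SEL1: the Selmer group of the isogeny with values in the classes of `X`. The valuation of `x` is
even at the primes that do not divide `2 p`; at `p` the classes are `1` and `p m ρ`, `ρ` a root of
`ρ² + 13 ρ + 128`. -/
def S_SEL1 : Prop := ∀ m p : ℕ, Hy m p → ∀ z : ℤ, Squarefree z → 0 < z →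
  (∀ (l : ℕ) [Fact l.Prime], PC (13 * (p * m)) (128 * (p * m) ^ 2) l z) → z = 1 ∨ z = 2

/-- SEL2: the dual one. The valuation of `x` is even at the primes that do not divide `7 p`; at `p`
the classes are `1` and `p m σ`, `σ` a root of `σ² - 26 σ - 343`, and `σ` is `ρ` times a square
(`ρ` and `ρ' = 128 / ρ` roots of `ρ² + 13 ρ + 128`, `σ = -(√ρ - √ρ')²`); at `2` the classes `-1` and
`7` are excluded by a computation modulo `16` (see `Pool.Agent.Y687.key16a`, `key16b`). -/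
def S_SEL2 : Prop := ∀ m p : ℕ, Hy m p → ∀ z : ℤ, Squarefree z →
  (∀ (l : ℕ) [Fact l.Prime], PC (-2 * (13 * (p * m)))
    ((13 * (p * m)) ^ 2 - 4 * (128 * (p * m) ^ 2)) l z) → z = 1 ∨ z = -7

end Pool.Agent.Y700
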