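import Pool.Agent.Y700.VC
import Pool.Agent.TH841.SH.Tr
import Pool.Agent.TH841.SH.Loc

/-!
The Tate-Shafarevich group does not depend on the Weierstrass equation.
-/

set_option autoImplicit false

namespace Pool.Agent.Y700

open WeierstrassCurve

open scoped Classical

open Pool.Agent.W262.SH (QB Pt act IsCoc IsCob LocTriv shaCoc cob Sha)

variable {W W' : WeierstrassCurve ℚ} {u r s t : ℚ}

theorem dL (hD : W'.Δ ≠ 0) (L : Type) [Field L] [Algebra ℚ L] :
    (W'.map (algebraMap ℚ L)).Δ ≠ 0 := by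
  rw [WeierstrassCurve.map_Δ]
  exact (map_ne_zero _).2 hD

/-- the isomorphism on the points over `L` -/
noncomputable def eL (h : VR W W' u r s t) (hD : W'.Δ ≠ 0) (L : Type) [Field L] [Algebra ℚ L] :
    Pt W' L ≃+ Pt W L :=
  (h.map (algebraMap ℚ L)).equiv (dL hD L)

theorem eL_act (h : VR W W' u r s t) (hD : W'.Δ ≠ 0) {F L : Type} [Field F] [Algebra ℚ F]
    [Field L] [Algebra ℚ L] (φ : F →ₐ[ℚ] L) (P : Pt W' F) :
    eL h hD L (act W' φ P) = act W φ (eL h hD F P) := by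
  match P with
  | 0 =>
    have e1 : act W' φ (0 : Pt W' F) = 0 := map_zero _
    have e2 : eL h hD F (0 : Pt W' F) = 0 := map_zero _
    rw [e1, e2, map_zero, map_zero]
  | .some x y hn =>
    have hn1 : (W'.baseChange L).toAffine.Nonsingular (φ x) (φ y) :=
      (Affine.baseChange_nonsingular W' φ.injective ..).mpr hn
    have hn2 : (W.baseChange F).toAffine.Nonsingular (algebraMap ℚ F u ^ 2 * x + algebraMap ℚ F r)
        (algebraMap ℚ F u ^ 3 * y + algebraMap ℚ F u ^ 2 * algebraMap ℚ F s * x +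
          algebraMap ℚ F t) :=
      nonsing ((h.map (algebraMap ℚ F)).delta_ne (dL hD F))
          ((h.map (algebraMap ℚ F)).eqn.2 hn.1)
    have hn3 : (W.baseChange L).toAffine.Nonsingular
        (algebraMap ℚ L u ^ 2 * φ x + algebraMap ℚ L r)
        (algebraMap ℚ L u ^ 3 * φ y + algebraMap ℚ L u ^ 2 * algebraMap ℚ L s * φ x +
          algebraMap ℚ L t) :=
      nonsing ((h.map (algebraMap ℚ L)).delta_ne (dL hD L))
          ((h.map (algebraMap ℚ L)).eqn.2 hn1.1)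
    have e1 : eL h hD F (.some x y hn : Pt W' F) = .some _ _ hn2 := rfl
    have e3 : eL h hD L (.some (φ x) (φ y) hn1 : Pt W' L) = .some _ _ hn3 := rfl
    have e4 : act W' φ (.some x y hn : Pt W' F) = .some (φ x) (φ y) hn1 := rfl
    have e5 : act W φ (.some _ _ hn2 : Pt W F) = .some _ _
      ((Affine.baseChange_nonsingular W φ.injective ..).mpr hn2) := rfl
    rw [e1, e4, e3, e5, Affine.Point.some.injEq]
    constructor
    · rw [map_add, map_mul, map_pow, φ.commutes, φ.commutes]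
    · rw [map_add, map_add, map_mul, map_mul, map_mul, map_pow, map_pow, φ.commutes, φ.commutes,
        φ.commutes]

theorem coc_VC (h : VR W W' u r s t) (hD : W'.Δ ≠ 0) {f : (QB ≃ₐ[ℚ] QB) → Pt W' QB}
    (hf : f ∈ shaCoc W') : (fun σ => eL h hD QB (f σ)) ∈ shaCoc W := by
  obtain ⟨⟨h1, h2⟩, h3, h4⟩ := hf
  have hl : ∀ (K : Type) [Field K] [Algebra ℚ K], LocTriv W' K f →
      LocTriv W K (fun σ => eL h hD QB (f σ)) := by
    intro K _ _ hK ι
    obtain ⟨P, hP⟩ := hK ι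
    refine ⟨eL h hD _ P, fun τ σ hτ => ?_⟩
    rw [← eL_act, hP τ σ hτ, map_sub, eL_act]
  refine ⟨⟨h1.comp _, fun σ τ => ?_⟩, fun p _ => hl _ (h3 p), hl _ h4⟩
  simp only
  rw [h2, map_add, eL_act]

theorem sha_two (h : VR W W' u r s t) (hD : W'.Δ ≠ 0)
    (h0 : ∀ x : Sha W, x + x = 0 → x = 0) (x : Sha W') (hx : x + x = 0) : x = 0 := by
  obtain ⟨f, rfl⟩ := QuotientAddGroup.mk_surjective x
  rw [← QuotientAddGroup.mk_add, QuotientAddGroup.eq_zero_iff, AddSubgroup.mem_addSubgroupOf] at hx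
  obtain ⟨P, hP⟩ := hx
  rw [QuotientAddGroup.eq_zero_iff, AddSubgroup.mem_addSubgroupOf]
  have h5 := h0 (QuotientAddGroup.mk ⟨_, coc_VC h hD f.2⟩) (by
    rw [← QuotientAddGroup.mk_add, QuotientAddGroup.eq_zero_iff, AddSubgroup.mem_addSubgroupOf]
    refine ⟨eL h hD _ P, fun σ => ?_⟩
    have e1 : (f : (QB ≃ₐ[ℚ] QB) → Pt W' QB) σ + (f : (QB ≃ₐ[ℚ] QB) → Pt W' QB) σ =
      act W' σ.toAlgHom P - P := hP σ
    show eL h hD QB ((f : (QB ≃ₐ[ℚ] QB) → Pt W' QB) σ) +
      eL h hD QB ((f : (QB ≃ₐ[ℚ] QB) → Pt W' QB) σ) = _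
    rw [← map_add, e1, map_sub, eL_act])
  rw [QuotientAddGroup.eq_zero_iff, AddSubgroup.mem_addSubgroupOf] at h5
  obtain ⟨Q, hQ⟩ := h5
  refine ⟨(eL h hD _).symm Q, fun σ => ?_⟩
  apply (eL h hD QB).injective
  have e1 : eL h hD QB ((f : (QB ≃ₐ[ℚ] QB) → Pt W' QB) σ) = act W σ.toAlgHom Q - Q := hQ σ
  rw [map_sub, eL_act, AddEquiv.apply_symm_apply]
  exact e1

/-- no `2`-power torsion -/
theorem sha_two_pow (h : VR W W' u r s t) (hD : W'.Δ ≠ 0)
    (h0 : ∀ x : Sha W, x + x = 0 → x = 0) (n : ℕ) (x : Pool.Agent.TH841.SH.D.Sha W')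
    (hx : 2 ^ n • x = 0) : x = 0 := by
  induction n generalizing x with
  | zero => simpa using hx
  | succ n ih =>
    have h1 : 2 • x = 0 := by
      apply ih
      rw [← mul_smul, ← pow_succ]
      exact hx
    have h2 := sha_two h hD h0 (Pool.Agent.TH841.SH.D.eSha W' x) (by
      rw [← map_add, ← two_nsmul, h1, map_zero])
    exact (map_eq_zero_iff _ (Pool.Agent.TH841.SH.D.eSha W').injective).1 h2

end Pool.Agent.Y700
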