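import Pool.Agent.Y700.Fin

/-!
The general form of the assembly: any squarefree `M = 1 mod 4`, prime to `14`.
-/

set_option autoImplicit false
set_option linter.style.haveILetI false

open Finset

namespace Pool.Agent.Y700

open Pool.Agent.W97.MT (ap E14 affCount IsGloballyMinimal)
open Pool.Agent.Y687 (Inert Split cnt SS)
open Pool.Agent.TH841.SH Pool.Agent.Y668

/-- the algebraic side -/
theorem alg_M {M : ℤ} (h4 : M % 4 = 1)
    (s1 : ∀ z : ℤ, Squarefree z → 0 < z →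
      (∀ (l : ℕ) [Fact l.Prime], PC (13 * M) (128 * M ^ 2) l z) → z = 1 ∨ z = 2)
    (s2 : ∀ z : ℤ, Squarefree z → (∀ (l : ℕ) [Fact l.Prime], PC (-2 * (13 * M))
      ((13 * M) ^ 2 - 4 * (128 * M ^ 2)) l z) → z = 1 ∨ z = -7) :
    (∀ (n : ℕ) (x : D.Sha ((WM M).map (Int.castRingHom ℚ))), 2 ^ n • x = 0 → x = 0) ∧
    Finite ((WM M).map (Int.castRingHom ℚ)).toAffine.Point ∧
    ∃ k, Odd k ∧ Nat.card ((WM M).map (Int.castRingHom ℚ)).toAffine.Point = 2 * k := by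
  have hM0 : M ≠ 0 := by intro h; rw [h] at h4; norm_num at h4
  have hM2 : 0 < M ^ 2 := by positivity
  have hb : 128 * M ^ 2 ≠ 0 := by positivity
  have hab : (13 * M) ^ 2 - 4 * (128 * M ^ 2) < 0 := by nlinarith
  obtain ⟨hfin, hcard⟩ := card_sel (a := 13 * M) (b := 128 * M ^ 2) hb hab
    (S1 := {1, 2}) (S2 := {1, -7}) (Set.toFinite _) (Set.toFinite _) (by
      intro z hz hz0 hpc
      have := s1 z hz hz0 (fun l _ => hpc l)
      simpa using this) (by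
      intro z hz hpc
      have := s2 z hz (fun l _ => hpc l)
      simpa using this)
  have hc4 : Nat.card (selCoc (Wt ((13 * M : ℤ) : ℚ) ((128 * M ^ 2 : ℤ) : ℚ))) ≤ 4 := by
    refine hcard.trans ?_
    rw [Set.ncard_pair (by norm_num), Set.ncard_pair (by norm_num)]
  have hbQ : ((128 * M ^ 2 : ℤ) : ℚ) ≠ 0 := by exact_mod_cast hb
  have habQ : ((13 * M : ℤ) : ℚ) ^ 2 - 4 * ((128 * M ^ 2 : ℤ) : ℚ) ≠ 0 := by
    exact_mod_cast hab.ne
  have hsq : ¬ IsSquare (((13 * M : ℤ) : ℚ) ^ 2 - 4 * ((128 * M ^ 2 : ℤ) : ℚ)) := by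
    have e : ((13 * M : ℤ) : ℚ) ^ 2 - 4 * ((128 * M ^ 2 : ℤ) : ℚ) = (((-343) * M ^ 2 : ℤ) : ℚ) := by
      push_cast; ring
    rw [e]
    exact not_sq_aux _ (by decide) hM0
  have hbs : ¬ IsSquare ((128 * M ^ 2 : ℤ) : ℚ) := not_sq_aux _ (by
    rintro ⟨r, hr⟩
    have k1 : r < 12 := by nlinarith
    have k2 : -12 < r := by nlinarith
    interval_cases r <;> omega) hM0
  obtain ⟨c1, c2, k, hk, c3⟩ := count hbQ habQ hsq hbs hfin hc4
  have hv := vr_WM h4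
  have hD : ((WM M).map (Int.castRingHom ℚ)).Δ ≠ 0 := by
    rw [WeierstrassCurve.map_Δ]
    have h5 : (WM M).Δ ≠ 0 := by
      rw [Delta_WM h4]
      exact mul_ne_zero (by norm_num) (pow_ne_zero 6 hM0)
    show (((WM M).Δ : ℤ) : ℚ) ≠ 0
    exact_mod_cast h5
  let e := hv.equiv hD
  refine ⟨fun n x hx => sha_two_pow hv hD c1 n x hx, ?_, k, hk, ?_⟩
  · exact Finite.of_equiv _ e.toEquiv.symm
  · rw [← c3]
    exact Nat.card_congr e.toEquiv

/-- the Tamagawa numbers -/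
theorem tam_gen (tE : S_E0) (tIN : S_TIN) (tSP : S_TSP) (t2 : S_T2) (t7 : S_T7) {P S : Finset ℕ}
    (hP : ∀ q ∈ P, q.Prime ∧ q ≠ 2 ∧ q ≠ 7 ∧ IsSquare (-7 : ZMod q))
    (hS : ∀ q ∈ S, q.Prime ∧ q ≠ 2 ∧ q ≠ 7 ∧ ¬ IsSquare (-7 : ZMod q))
    {M : ℕ} (hM : M = (∏ q ∈ P, q) * ∏ q ∈ S, q) (h4 : M % 4 = 1) (hsqM : Squarefree ((M : ℕ) : ℤ)) :
    ∃ o : ℕ, Odd o ∧ tamProd (WM (M : ℤ)) = 2 ^ (S.card + 2 * P.card + 1) * o := by
  classical
  have hPp : ∀ q ∈ P, q.Prime := fun q hq => (hP q hq).1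
  have hSp : ∀ q ∈ S, q.Prime := fun q hq => (hS q hq).1
  have h4' : (M : ℤ) % 4 = 1 := by omega
  have hM0 : M ≠ 0 := by omega
  have hdisj : Disjoint P S := by
    rw [Finset.disjoint_left]
    intro q h1 h2
    exact (hS q h2).2.2.2 (hP q h1).2.2.2
  have hpf : (WM (M : ℤ)).Δ.natAbs.primeFactors = {2, 7} ∪ (P ∪ S) := by
    ext l
    have hΔ : (WM (M : ℤ)).Δ ≠ 0 := by
      rw [Delta_WM h4']
      have : (M : ℤ) ≠ 0 := by exact_mod_cast hM0
      positivity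
    rw [Nat.mem_primeFactors]
    constructor
    · rintro ⟨hl, hd, -⟩
      have hd' : (l : ℤ) ∣ (WM (M : ℤ)).Δ := Int.natCast_dvd.2 hd
      rw [dvd_Delta h4 hl] at hd'
      rcases hd' with h | h
      · rw [show (14 : ℕ) = 2 * 7 by norm_num, hl.dvd_mul] at h
        rcases h with h | h
        · have := (Nat.prime_dvd_prime_iff_eq hl Nat.prime_two).1 h
          simp [this]
        · have := (Nat.prime_dvd_prime_iff_eq hl (by norm_num : Nat.Prime 7)).1 h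
          simp [this]
      · rw [hM, hl.dvd_mul] at h
        rcases h with h | h
        · have := Pool.Agent.Y687.dvd_prod_primes hPp hl h
          simp [this]
        · have := Pool.Agent.Y687.dvd_prod_primes hSp hl h
          simp [this]
    · intro h
      simp only [Finset.mem_union, Finset.mem_insert, Finset.mem_singleton] at h
      have key : l.Prime ∧ (l ∣ 14 ∨ l ∣ M) := by
        rcases h with (rfl | rfl) | h | h
        · exact ⟨Nat.prime_two, Or.inl (by norm_num)⟩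
        · exact ⟨by norm_num, Or.inl (by norm_num)⟩
        · refine ⟨hPp l h, Or.inr ?_⟩
          rw [hM]
          exact dvd_mul_of_dvd_left (Finset.dvd_prod_of_mem _ h) _
        · refine ⟨hSp l h, Or.inr ?_⟩
          rw [hM]
          exact dvd_mul_of_dvd_right (Finset.dvd_prod_of_mem _ h) _
      refine ⟨key.1, ?_, by simpa using hΔ⟩
      exact Int.natCast_dvd.1 ((dvd_Delta h4 key.1).2 key.2)
  set F : ℕ → ℕ := fun l => if h : l.Prime then (haveI := Fact.mk h; tam (WM (M : ℤ)) l) else 1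
    with hF
  have hprod : tamProd (WM (M : ℤ)) = F 2 * F 7 * ((∏ q ∈ P, F q) * ∏ q ∈ S, F q) := by
    have e : tamProd (WM (M : ℤ)) = ∏ l ∈ (WM (M : ℤ)).Δ.natAbs.primeFactors, F l := by
      unfold tamProd
      refine Finset.prod_congr rfl fun l _ => ?_
      simp only [hF]
    rw [e, hpf, Finset.prod_union, Finset.prod_union hdisj, Finset.prod_pair (by norm_num)]
    rw [Finset.disjoint_left]
    intro l hl hl'
    simp only [Finset.mem_insert, Finset.mem_singleton, Finset.mem_union] at hl hl'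
    rcases hl' with h | h
    · have := hP l h
      omega
    · have := hS l h
      omega
  have hF' : ∀ l : ℕ, ∀ (h : Fact l.Prime), F l = tam (WM (M : ℤ)) l := by
    intro l h
    simp only [hF]
    rw [dif_pos h.out]
  have nsq : ∀ l : ℕ, l.Prime → ¬ ((l : ℤ) ^ 2 ∣ (M : ℤ)) := by
    intro l hl hd
    have h1 := hsqM l (by rw [← sq]; exact hd)
    rw [Int.isUnit_iff] at h1
    have := hl.one_lt
    omega
  -- the factor at `2`
  obtain ⟨o2, ho2, e2⟩ : ∃ k, Odd k ∧ F 2 = 2 * k := by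
    apply odd_of_val_one
    rw [hF' 2 ⟨Nat.prime_two⟩]
    exact t2 tE M h4'
  have h7M : ¬ (7 : ℤ) ∣ (M : ℤ) := by
    intro h
    have h7 : (7 : ℕ) ∣ M := by exact_mod_cast h
    rw [hM, (by norm_num : Nat.Prime 7).dvd_mul] at h7
    rcases h7 with h7 | h7
    · exact (hP 7 (Pool.Agent.Y687.dvd_prod_primes hPp (by norm_num) h7)).2.2.1 rfl
    · exact (hS 7 (Pool.Agent.Y687.dvd_prod_primes hSp (by norm_num) h7)).2.2.1 rfl
  have o7 : Odd (F 7) := by
    rw [hF' 7 ⟨by norm_num⟩]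
    exact t7 tE ⟨by norm_num⟩ M h4' h7M
  have eP : ∏ q ∈ P, F q = 4 ^ P.card := by
    rw [Finset.prod_congr rfl (g := fun _ => 4), Finset.prod_const]
    intro q hq
    haveI : Fact q.Prime := ⟨hPp q hq⟩
    obtain ⟨-, n2, n7, n3⟩ := hP q hq
    rw [hF' q ⟨hPp q hq⟩]
    refine tSP tE M q h4' n2 n7 (Int.natCast_dvd_natCast.2 ?_) (nsq q (hPp q hq)) n3
    rw [hM]
    exact dvd_mul_of_dvd_left (Finset.dvd_prod_of_mem _ hq) _
  have eS : ∏ q ∈ S, F q = 2 ^ S.card := by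
    rw [Finset.prod_congr rfl (g := fun _ => 2), Finset.prod_const]
    intro q hq
    haveI : Fact q.Prime := ⟨hSp q hq⟩
    obtain ⟨-, n2, n7, n3⟩ := hS q hq
    rw [hF' q ⟨hSp q hq⟩]
    refine tIN tE M q h4' n2 n7 (Int.natCast_dvd_natCast.2 ?_) (nsq q (hSp q hq)) n3
    rw [hM]
    exact dvd_mul_of_dvd_right (Finset.dvd_prod_of_mem _ hq) _
  refine ⟨o2 * F 7, ho2.mul o7, ?_⟩
  rw [hprod, e2, eP, eS, pow_add, pow_add, pow_mul]
  norm_num
  ring

/-- **the `2`-part of the formula**, from the exact valuations -/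
theorem concl (tO : S_OMEGA) (tM : S_MIN) {M : ℕ} (h4 : M % 4 = 1) (hM1 : 1 < M)
    (hsqf : Squarefree ((M : ℕ) : ℤ)) (h14 : Nat.Coprime M 14)
    {s : ℚ → ℤ} {L : PeriodPair} {Op Om : ℝ} (hOp : 0 < Op) (hOm : 0 < Om)
    (g2 : L.g₂ = -215 / 12) (g3 : L.g₃ = 5291 / 216)
    (hL : ∀ w : ℂ, w ∈ L.lattice ↔ ∃ a b : ℤ, 2 ∣ a - b ∧ w = a * Op + b * Om * Complex.I)
    (hs : ∀ r : ℚ, (3 : ℝ) * (Pool.Agent.W97.MT.II r).re = s r * Op) {e : ℕ} {o1 : ℤ}
    (ho1 : Odd o1) (e1 : SS s M M = 2 ^ e * o1) {o3 : ℕ} (ho3 : Odd o3)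
    (e3 : tamProd (WM (M : ℤ)) = 2 ^ (e + 1) * o3) {k : ℕ} (hk : Odd k)
    (a3 : Nat.card (EQ (WM (M : ℤ))).toAffine.Point = 2 * k) :
    IsGloballyMinimal (WM (M : ℤ)) ∧
    (∃ f, IsL (WM (M : ℤ)) f) ∧ ∀ f, IsL (WM (M : ℤ)) f → f 1 ≠ 0 ∧ ∃ u : ℚ, padicValRat 2 u = 0 ∧
      f 1 = (((u : ℝ) * (Omega (WM (M : ℤ)) * tamProd (WM (M : ℤ)) /
        (Nat.card (EQ (WM (M : ℤ))).toAffine.Point : ℝ) ^ 2) : ℝ) : ℂ) := by
  have h4' : (M : ℤ) % 4 = 1 := by omega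
  have hodd : Odd M := Nat.odd_iff.2 (by omega)
  have h7M : ¬ 7 ∣ M := by
    intro h
    have h1 : 7 ∣ Nat.gcd M 14 := Nat.dvd_gcd h (by norm_num)
    rw [h14] at h1
    norm_num at h1
  obtain ⟨f, ε, hf, hε, hv⟩ := value hodd (Int.squarefree_natCast.1 hsqf) hM1 h4 h14 hs
  have hΩ : Omega (WM (M : ℤ)) = 2 * Op / Real.sqrt M := by
    have := tO L Op Om hOp hOm g2 g3 hL (M : ℤ) h4' (by omega)
    simpa using this
  refine ⟨(tM M h4' hsqf (by exact_mod_cast h7M)).1, ⟨f, hf⟩, ?_⟩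
  intro g hg
  rw [hg.unique hf]
  have hMR : (0 : ℝ) < M := by exact_mod_cast (by omega : 0 < M)
  have hsq0 : (Real.sqrt M) ≠ 0 := (Real.sqrt_pos.2 hMR).ne'
  have hεo : Odd ε := by rcases hε with rfl | rfl <;> decide
  obtain ⟨hu0, hu1⟩ := odd_div_odd (a := ε * o1 * (k : ℤ) ^ 2) (b := 3 * (o3 : ℤ))
    ((hεo.mul ho1).mul ((Int.odd_coe_nat k).2 hk).pow)
    ((by decide : Odd (3 : ℤ)).mul ((Int.odd_coe_nat o3).2 ho3))
  have ho3' : (o3 : ℝ) ≠ 0 := by
    rintro h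
    have : o3 = 0 := by exact_mod_cast h
    rw [this] at ho3
    exact absurd ho3 (by decide)
  have hk' : (k : ℝ) ≠ 0 := by
    rintro h
    have : k = 0 := by exact_mod_cast h
    rw [this] at hk
    exact absurd hk (by decide)
  have ho1' : (o1 : ℝ) ≠ 0 := by
    rintro h
    have : o1 = 0 := by exact_mod_cast h
    rw [this] at ho1
    exact absurd ho1 (by decide)
  have hε' : (ε : ℝ) ≠ 0 := by rcases hε with rfl | rfl <;> norm_num
  have hSSR : (SS s M M : ℝ) = 2 ^ e * o1 := by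
    rw [e1]
    push_cast
    rfl
  refine ⟨?_, _, hu1, ?_⟩
  · rw [hv]
    rw [Complex.ofReal_ne_zero]
    rw [hSSR]
    have := hOp.ne'
    positivity
  · rw [hv]
    congr 1
    rw [hΩ, hSSR, e3, a3]
    push_cast
    rw [pow_add]
    field_simp

end Pool.Agent.Y700
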