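import Pool.Agent.Y700.Defs

/-!
# Two split primes: the statements of the isogeny Selmer sets
-/

set_option autoImplicit false

namespace Pool.Agent.Y700

/-- no root of `x² + 13 m x + 128 m²` mod `p` is a square (the same as `Pool.Agent.Y687.Rt`) -/
def Rt (p m : ℕ) : Prop := ∀ x : ZMod p,
  x ^ 2 + 13 * (m : ZMod p) * x + 128 * (m : ZMod p) ^ 2 = 0 → ¬ IsSquare x

/-- the hypotheses on the twist by `p1 p2 m` (the same as `Pool.Agent.Y687.Hyp2`) -/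
structure Hy2 (m p1 p2 : ℕ) : Prop where
  m4 : m % 4 = 1
  pp1 : p1.Prime
  pp2 : p2.Prime
  p18 : p1 % 8 = 1
  p28 : p2 % 8 = 1
  sqf : Squarefree (((p1 * p2 * m : ℕ)) : ℤ)
  two : ∀ q : ℕ, q.Prime → q ∣ m → q ≠ 2 ∧ q ≠ 7 ∧ ¬ IsSquare (-7 : ZMod q) ∧ ¬ IsSquare (2 : ZMod q)
  p17 : p1 ≠ 7
  p27 : p2 ≠ 7
  sev1 : IsSquare (-7 : ZMod p1)
  sev2 : IsSquare (-7 : ZMod p2)
  c12 : IsSquare (p1 : ZMod p2) → Rt p1 m ∧ Rt p2 m
  cor : Rt p1 m ∨ Rt p2 m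

/-- SEL1 for two split primes (see `Pool.Agent.Y814.BSD14.Sel1` for one, and
`Pool.Agent.Y687.Hyp2.cls1` for the rational points) -/
def S_SEL1b : Prop := ∀ m p1 p2 : ℕ, Hy2 m p1 p2 → ∀ z : ℤ, Squarefree z → 0 < z →
  (∀ (l : ℕ) [Fact l.Prime], PC (13 * ((p1 * p2) * m)) (128 * ((p1 * p2) * m) ^ 2) l z) →
    z = 1 ∨ z = 2

/-- SEL2 for two split primes (see `Pool.Agent.Y814.BSD14.Sel2` for one, and
`Pool.Agent.Y687.Hyp2.cls2` for the rational points) -/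
def S_SEL2b : Prop := ∀ m p1 p2 : ℕ, Hy2 m p1 p2 → ∀ z : ℤ, Squarefree z →
  (∀ (l : ℕ) [Fact l.Prime], PC (-2 * (13 * ((p1 * p2) * m)))
    ((13 * ((p1 * p2) * m)) ^ 2 - 4 * (128 * ((p1 * p2) * m) ^ 2)) l z) → z = 1 ∨ z = -7

end Pool.Agent.Y700
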