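import Pool.Agent.Y687.Sym

/-!
The modular symbol of `X_0(14)` together with the period lattice.
-/

set_option autoImplicit false

open Filter Topology MeasureTheory Set

namespace Pool.Agent.Y700

open Pool.Agent.W97.TW Pool.Agent.W97.MT Pool.Agent.Y687

/-- the integral symbol -/
theorem exists_symb' : ∃ (s : ℚ → ℤ) (L : PeriodPair) (Op Om : ℝ), 0 < Op ∧ 0 < Om ∧
    L.g₂ = -215 / 12 ∧ L.g₃ = 5291 / 216 ∧
    (∀ w : ℂ, w ∈ L.lattice ↔ ∃ a b : ℤ, 2 ∣ a - b ∧ w = a * Op + b * Om * Complex.I) ∧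
    Symb s (fun q => ap E14 q) ∧ ∀ r : ℚ, (3 : ℝ) * (II r).re = s r * Op := by
  obtain ⟨L, Op, Om, hOp, hOm, g2, g3, hL⟩ := hlat
  obtain ⟨Ξ, U, P, rΞ, rU, rP, tΞ, tU, tP⟩ := expansions hqe
  obtain ⟨h0, i2, i3, i6, iint, ij, i7⟩ := integrals hcp hqe hode L g2 g3 hinj htors
  have hP0 : PowerSeries.coeff 0 P = 1 := by
    rw [tP 0 (by norm_num)]; rfl
  have hecke' : ∀ q : ℕ, q.Prime → ∀ z, W97.MT.hecke 14 q form14 z = (ap E14 q : ℂ) * form14 z := by
    intro q hq z
    have h1 := hecke_f14 hcp hqe rP hP0 hq z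
    rw [coef_eq L g2 g3 rΞ rU rP tΞ tU tP hq] at h1
    exact h1
  have h7 : II 0 = ∑ b ∈ Finset.range 7, II ((b : ℚ) / 7) := by
    have h1 := hhint 14 7 form14 (1 : ℂ) (by norm_num) (int_rat L g2 g3) (fun z => by
      have h2 := hecke_f14 hcp hqe rP hP0 (p := 7) (by norm_num) z
      rw [tP (7 - 1) (by norm_num)] at h2
      have h3 : lphi.getD (7 - 1) 0 = 1 := rfl
      rw [h3, Int.cast_one] at h2
      exact h2) 0
    rw [if_pos (by norm_num : (7 : ℕ) ∣ 14), one_mul, zero_add, prim_rat] at h1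
    rw [h1]
    refine Finset.sum_congr rfl fun b _ => ?_
    rw [prim_rat]
    congr 1
    push_cast
    ring
  obtain ⟨s, hleast, hsymb, hne⟩ := harith II Op Om L.lattice hOp hOm hL II_zero_im i6 i2 i3
    ij II_conj II_add_one h7
  have hs : ∀ r : ℚ, (3 : ℝ) * (II r).re = s r * Op := by
    intro r
    have h1 := hsymb r
    rw [II_conj, Complex.conj_re] at h1
    exact h1
  have inj : ∀ x y : ℤ, (x : ℝ) * Op = y * Op → x = y := by
    intro x y hxy
    exact_mod_cast mul_right_cancel₀ hOp.ne' hxy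
  obtain ⟨ε, C, hε, -, hF⟩ := (isCusp14 hcp hqe).map.const
  have hε1 : ε = -1 := by
    rcases hε with rfl | rfl
    · exfalso
      have h1 := II_inv L g2 g3 (Or.inl rfl) hF (a := 0) (c := 1) (w := 0) (y := -1)
        (by norm_num) (by norm_num)
      norm_num at h1
      have h2 : (2 : ℂ) * II 0 = 0 := by linear_combination h1
      exact i2 (by rw [h2]; exact zero_mem _)
    · rfl
  subst hε1
  refine ⟨s, L, Op, Om, hOp, hOm, g2, g3, hL, ⟨?_, ?_, ?_, ?_, ?_⟩, hs⟩
  · intro x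
    apply inj
    rw [← hs, ← hs, II_add_one]
  · intro x
    apply inj
    rw [← hs, ← hs, II_conj, Complex.conj_re]
  · intro q hq hq14 x
    apply inj
    have h1 := hhint 14 q form14 (ap E14 q : ℂ) hq (int_rat L g2 g3) (hecke' q hq) x
    rw [if_neg hq14, prim_rat, prim_rat] at h1
    simp_rw [prim_rat] at h1
    have h2 := congrArg Complex.re h1
    rw [Complex.add_re, Complex.re_sum] at h2
    have h3 : ((ap E14 q : ℂ) * II x).re = ap E14 q * (II x).re := by
      have : (ap E14 q : ℂ) = ((ap E14 q : ℝ) : ℂ) := by push_cast; rfl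
      rw [this, Complex.re_ofReal_mul]
    rw [h3] at h2
    push_cast
    rw [mul_assoc, ← hs, add_mul, ← hs, Finset.sum_mul]
    simp_rw [← hs]
    rw [← Finset.mul_sum]
    linear_combination 3 * h2
  · intro M b d hM hdvd
    obtain ⟨y, hy⟩ := hdvd
    apply inj
    have hM' : (0 : ℤ) < M := by exact_mod_cast hM
    have h1 := II_inv L g2 g3 (Or.inr rfl) hF (a := b) (c := M) (w := d) (y := y) hM'
      (by linarith)
    rw [neg_neg, one_mul] at h1
    rw [← hs, ← hs]
    have h2 : II ((d : ℚ) / M) = starRingEnd ℂ (II (-(d : ℚ) / (M : ℤ))) := by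
      rw [← II_conj]
      congr 1
      push_cast
      ring
    rw [h2, h1, Complex.conj_re]
    push_cast
    rfl
  · rw [← Int.not_even_iff_odd]
    rintro ⟨k, hk⟩
    apply i3
    refine (hL _).2 ⟨s 0, 0, by rw [hk]; exact ⟨k, by ring⟩, ?_⟩
    apply Complex.ext
    · have := hs 0
      simp at this ⊢
      linarith
    · have := II_zero_im
      simp [this]

end Pool.Agent.Y700
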