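import Pool.Agent.Y700.Ap
import Pool.Agent.Y700.Sym
import Pool.Agent.Y687.Lfin
import Pool.Agent.W378.CY.AFE0

/-!
The `L`-functions of the twists of `X_0(14)` and their central values.
-/

set_option autoImplicit false
set_option linter.style.haveILetI false

open Complex Filter Topology Set UpperHalfPlane MatrixGroups CongruenceSubgroup ZMod

namespace Pool.Agent.Y700

open Pool.Agent.W97.MT Pool.Agent.Y687
open Pool.Agent.H491R3.J (OS)

/-- `f` is entire and equal to the Euler product of `W` for `Re s > 3/2` -/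
def IsL (W : WeierstrassCurve ℤ) (f : ℂ → ℂ) : Prop :=
  Differentiable ℂ f ∧ ∀ s : ℂ, 3 / 2 < s.re →
    HasProd (fun p : Nat.Primes => (1 - (ap W p : ℂ) * ((p : ℕ) : ℂ) ^ (-s) +
      (if ((p : ℕ) : ℤ) ∣ W.Δ then 0 else ((p : ℕ) : ℂ) ^ (1 - 2 * s)))⁻¹) (f s)

theorem IsL.unique {W : WeierstrassCurve ℤ} {f g : ℂ → ℂ} (hf : IsL W f) (hg : IsL W g) : f = g :=
  by
  have hfa : AnalyticOnNhd ℂ f Set.univ := fun z _ => hf.1.analyticAt z
  have hga : AnalyticOnNhd ℂ g Set.univ := fun z _ => hg.1.analyticAt z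
  have heq : f =ᶠ[nhds (2 : ℂ)] g := by
    have hopen : IsOpen {s : ℂ | (3 : ℝ) / 2 < s.re} := isOpen_lt continuous_const Complex.continuous_re
    filter_upwards [hopen.mem_nhds (show (3 : ℝ) / 2 < (2 : ℂ).re by norm_num)] with s hs
    exact (hf.2 s hs).unique (hg.2 s hs)
  exact hfa.eq_of_eventuallyEq hga heq

/-- the discriminant -/
theorem Delta_WM {M : ℤ} (hM : M % 4 = 1) : (WM M).Δ = -(2 ^ 6 * 7 ^ 3) * M ^ 6 := by
  obtain ⟨a, b, c, hW, ha, hb, hc⟩ := WM_coeff hM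
  have h1 : 64 * ((WM M).Δ) = 64 * (-(2 ^ 6 * 7 ^ 3) * M ^ 6) := by
    rw [hW]
    unfold WeierstrassCurve.Δ WeierstrassCurve.b₂ WeierstrassCurve.b₄ WeierstrassCurve.b₆
      WeierstrassCurve.b₈
    have ea : a * 4 = M - 1 := by linarith
    obtain ⟨k, hk⟩ : ∃ k, M = 4 * k + 1 := ⟨M / 4, by omega⟩
    have ha' : a = k := by omega
    have hb' : b = 72 * k ^ 2 + 36 * k + 4 := by rw [hk] at hb; linarith
    have hc' : c = -(368 * k ^ 3 + 276 * k ^ 2 + 69 * k + 6) := by rw [hk] at hc; linarith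
    rw [hk, ha', hb', hc']
    ring
  linarith

theorem dvd_Delta {M : ℕ} (hM : M % 4 = 1) {p : ℕ} (hp : p.Prime) :
    (p : ℤ) ∣ (WM M).Δ ↔ p ∣ 14 ∨ p ∣ M := by
  rw [Delta_WM (by omega)]
  have e : (-(2 ^ 6 * 7 ^ 3) * (M : ℤ) ^ 6) = -(((2 ^ 6 * 7 ^ 3 * M ^ 6 : ℕ) : ℤ)) := by
    push_cast; ring
  rw [e, dvd_neg, Int.natCast_dvd_natCast, hp.dvd_mul, hp.dvd_mul]
  constructor
  · rintro ((h | h) | h)
    · exact Or.inl ((hp.dvd_of_dvd_pow h).trans (by norm_num))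
    · exact Or.inl ((hp.dvd_of_dvd_pow h).trans (by norm_num))
    · exact Or.inr (hp.dvd_of_dvd_pow h)
  · rintro (h | h)
    · rw [show (14 : ℕ) = 2 * 7 by norm_num, hp.dvd_mul] at h
      rcases h with h | h
      · exact Or.inl (Or.inl (dvd_pow h (by norm_num)))
      · exact Or.inl (Or.inr (dvd_pow h (by norm_num)))
    · exact Or.inr (dvd_pow h (by norm_num))

/-- the square of the Gauss sum -/
theorem gs_sq (d : OS) (h4 : d.1 % 4 = 1) :
    (gaussSum (H491R3.J.chi d) (stdAddChar (N := d.1))) ^ 2 = d.1 := by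
  have h1 := Pool.Agent.W378.CY.gauss_prod d.1 (H491R3.J.chi d) (H491R3.J.chi_primitive d)
  rw [H491R3.J.chi_inv d, H491R3.J.chi_neg_one, if_pos h4, one_mul] at h1
  rw [sq, h1]

/-- the `L`-function of the twist by `M` -/
theorem exists_LM (M : ℕ) [NeZero M] (hodd : Odd M) (hsq : Squarefree M) (h1 : 1 < M) (h4 : M % 4 = 1)
    (h14 : Nat.Coprime M 14) :
    ∃ (f : ℂ → ℂ) (τ : ℂ), IsL (WM M) f ∧ τ ^ 2 = M ∧
      τ * f 1 = ∑ u : (ZMod M)ˣ, ((jacobiSym (((u : ZMod M).val : ℕ) : ℤ) M : ℤ) : ℂ) *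
        II (((u : ZMod M).val : ℚ) / M) := by
  classical
  set d : OS := ⟨M, hodd, hsq, h1⟩ with hd
  obtain ⟨g, hg1, hg2, hg3⟩ := exists_L (q := M) h14 (H491R3.J.chi d) (H491R3.J.chi_primitive d)
  have hchi : ∀ m : ℕ, H491R3.J.chi d (m : ZMod M) = ((jacobiSym (m : ℤ) M : ℤ) : ℂ) :=
    H491R3.J.chi_natCast d
  refine ⟨g, gaussSum (H491R3.J.chi d) (stdAddChar (N := M)), ⟨hg1, ?_⟩, gs_sq d h4, ?_⟩
  · intro s hs
    refine (congrArg (fun g => HasProd g _) (funext fun p => ?_)).mp (hg2 s hs)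
    have hpp : (p : ℕ).Prime := p.2
    haveI : Fact (p : ℕ).Prime := ⟨hpp⟩
    rw [hchi]
    by_cases hpM : (p : ℕ) ∣ M
    · have hbad : ((p : ℕ) : ℤ) ∣ (WM M).Δ := (dvd_Delta h4 hpp).2 (Or.inr hpM)
      have h0 : jacobiSym ((p : ℕ) : ℤ) M = 0 := by
        rw [jacobiSym.eq_zero_iff_not_coprime, Int.gcd_natCast_natCast]
        intro hg
        have := Nat.dvd_gcd (dvd_refl (p : ℕ)) hpM
        rw [hg] at this
        exact hpp.one_lt.ne' (Nat.dvd_one.1 this)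
      have hp2 : (p : ℕ) ≠ 2 := by
        intro h
        rw [h] at hpM
        omega
      rw [h0, if_pos hbad, ap_dvd (by omega) _ hp2 (by exact_mod_cast hpM)]
      simp
    · have hx : jacobiSym ((p : ℕ) : ℤ) M = 1 ∨ jacobiSym ((p : ℕ) : ℤ) M = -1 := by
        refine jacobiSym.eq_one_or_neg_one ?_
        rw [Int.gcd_natCast_natCast]
        exact (Nat.Prime.coprime_iff_not_dvd hpp).2 hpM
      have hx2 : ((jacobiSym ((p : ℕ) : ℤ) M : ℤ) : ℂ) ^ 2 = 1 := by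
        rcases hx with h | h <;> rw [h] <;> norm_num
      have hap : ap (WM M) p = jacobiSym ((p : ℕ) : ℤ) M * ap E14 p := by
        by_cases hp2 : (p : ℕ) = 2
        · rw [hp2, ap_two h4, ap2]
          push_cast
          ring
        · exact ap_odd h4 _ hp2 hpM
      rw [hap, hx2]
      have hΔ : ((p : ℕ) : ℤ) ∣ (WM M).Δ ↔ (p : ℕ) ∣ 14 := by
        rw [dvd_Delta h4 hpp]
        tauto
      by_cases h14' : (p : ℕ) ∣ 14
      · rw [if_pos h14', if_pos (hΔ.2 h14')]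
        push_cast
        ring
      · rw [if_neg h14', if_neg (fun h => h14' (hΔ.1 h)), mul_one, p_cpow hpp.ne_zero]
        push_cast
        ring
  · have hinv : (H491R3.J.chi d)⁻¹ = H491R3.J.chi d := H491R3.J.chi_inv d
    rw [hinv] at hg3
    rw [hg3]
    refine Finset.sum_congr rfl fun u _ => ?_
    rw [← hchi, ZMod.natCast_zmod_val]

/-- the sum over the classes is real -/
theorem sum_real (M : ℕ) [NeZero M] (h1 : 1 < M) (h4 : M % 4 = 1) :
    (∑ u : (ZMod M)ˣ, ((jacobiSym (((u : ZMod M).val : ℕ) : ℤ) M : ℤ) : ℂ) *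
        II (((u : ZMod M).val : ℚ) / M)).im = 0 := by
  set T := ∑ u : (ZMod M)ˣ, ((jacobiSym (((u : ZMod M).val : ℕ) : ℤ) M : ℤ) : ℂ) *
        II (((u : ZMod M).val : ℚ) / M) with hT
  have h : T = starRingEnd ℂ T := by
    rw [hT, map_sum]
    refine Fintype.sum_equiv (Equiv.neg (ZMod M)ˣ) _ _ fun u => ?_
    rw [map_mul, map_intCast, ← II_conj]
    haveI : Nontrivial (ZMod M) := ZMod.nontrivial_iff.2 (by omega)
    have hu0 : (u : ZMod M) ≠ 0 := u.ne_zero
    haveI : NeZero (u : ZMod M) := ⟨hu0⟩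
    have hval : (((Equiv.neg (ZMod M)ˣ) u : (ZMod M)ˣ) : ZMod M).val = M - (u : ZMod M).val := by
      rw [Equiv.neg_apply, Units.val_neg, ZMod.val_neg_of_ne_zero]
    have hlt : (u : ZMod M).val ≤ M := (ZMod.val_lt _).le
    rw [hval]
    congr 1
    · congr 1
      rw [Nat.cast_sub hlt]
      rw [show ((M : ℤ) - (((u : ZMod M).val : ℕ) : ℤ)) = -(((u : ZMod M).val : ℕ) : ℤ) + M * 1 by ring]
      have e2 : jacobiSym (-(((u : ZMod M).val : ℕ) : ℤ) + M * 1) M =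
          jacobiSym (-(((u : ZMod M).val : ℕ) : ℤ)) M := by
        refine jacobiSym.mod_left' ?_
        rw [Int.add_mul_emod_self_left]
      rw [e2, jacobiSym.neg _ (Nat.odd_iff.2 (by omega)), ZMod.χ₄_nat_eq_if_mod_four, h4]
      have : M % 2 = 1 := by omega
      rw [this]
      norm_num
    · have hMQ : (M : ℚ) ≠ 0 := by exact_mod_cast (by omega : M ≠ 0)
      have e3 : -(((M - (u : ZMod M).val : ℕ) : ℚ) / M) + 1 = ((u : ZMod M).val : ℚ) / M := by
        rw [Nat.cast_sub hlt]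
        field_simp
        ring
      rw [← e3, II_add_one]
  have h3 := congrArg Complex.im h
  rw [Complex.conj_im] at h3
  linarith

/-- the central value -/
theorem value {M : ℕ} (hodd : Odd M) (hsq : Squarefree M) (h1 : 1 < M) (h4 : M % 4 = 1)
    (h14 : Nat.Coprime M 14) {s : ℚ → ℤ} {Op : ℝ} (hs : ∀ r : ℚ, (3 : ℝ) * (II r).re = s r * Op) :
    ∃ (f : ℂ → ℂ) (ε : ℤ), IsL (WM M) f ∧ (ε = 1 ∨ ε = -1) ∧
      f 1 = ((ε * SS s M M * Op / (3 * Real.sqrt M) : ℝ) : ℂ) := by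
  haveI : NeZero M := ⟨by omega⟩
  obtain ⟨f, τ, hf, hτ, hv⟩ := exists_LM M hodd hsq h1 h4 h14
  have him := sum_real M h1 h4
  have hre : (∑ u : (ZMod M)ˣ, ((jacobiSym (((u : ZMod M).val : ℕ) : ℤ) M : ℤ) : ℂ) *
        II (((u : ZMod M).val : ℚ) / M)).re * 3 = SS s M M * Op := by
    unfold SS
    rw [sum_rrC (M := M) (fun a => ((jacobiSym (a : ℤ) M : ℤ) : ℂ) * II ((a : ℚ) / M)) |>.symm,
      Complex.re_sum]
    push_cast
    rw [Finset.sum_mul, Finset.sum_mul]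
    refine Finset.sum_congr rfl fun a _ => ?_
    have h3 : ((jacobiSym (a : ℤ) M : ℤ) : ℂ) = (((jacobiSym (a : ℤ) M : ℤ) : ℝ) : ℂ) := by
      push_cast; rfl
    rw [h3, Complex.re_ofReal_mul]
    have := hs ((a : ℚ) / M)
    linear_combination ((jacobiSym (a : ℤ) M : ℝ)) * this
  set T := ∑ u : (ZMod M)ˣ, ((jacobiSym (((u : ZMod M).val : ℕ) : ℤ) M : ℤ) : ℂ) *
        II (((u : ZMod M).val : ℚ) / M) with hT
  have hTr : T = ((SS s M M * Op / 3 : ℝ) : ℂ) := by
    apply Complex.ext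
    · rw [Complex.ofReal_re]
      linarith
    · rw [Complex.ofReal_im]
      exact him
  have hMR : (0 : ℝ) < M := by exact_mod_cast (by omega : 0 < M)
  have hsq0 : (Real.sqrt M) ≠ 0 := (Real.sqrt_pos.2 hMR).ne'
  have hcases : τ = Real.sqrt M ∨ τ = -Real.sqrt M := by
    have h5 : (τ - Real.sqrt M) * (τ + Real.sqrt M) = 0 := by
      have h6 : ((Real.sqrt M : ℝ) : ℂ) ^ 2 = M := by
        rw [← Complex.ofReal_pow, Real.sq_sqrt hMR.le]
        simp
      linear_combination hτ - h6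
    rcases mul_eq_zero.1 h5 with h | h
    · left; linear_combination h
    · right; linear_combination h
  have hsqc : ((Real.sqrt M : ℝ) : ℂ) ≠ 0 := by exact_mod_cast hsq0
  rcases hcases with h | h
  · refine ⟨f, 1, hf, Or.inl rfl, ?_⟩
    rw [h, hTr] at hv
    rw [Complex.ofReal_div, Complex.ofReal_mul (3 : ℝ)]
    rw [Complex.ofReal_div] at hv
    field_simp
    field_simp at hv
    push_cast at hv ⊢
    linear_combination hv
  · refine ⟨f, -1, hf, Or.inr rfl, ?_⟩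
    rw [h, hTr] at hv
    rw [Complex.ofReal_div, Complex.ofReal_mul (3 : ℝ)]
    rw [Complex.ofReal_div] at hv
    field_simp
    field_simp at hv
    push_cast at hv ⊢
    linear_combination -hv

end Pool.Agent.Y700
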