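import Pool.Agent.Y700.Gen
import Pool.Agent.Y700.Defs2
import Pool.Agent.Y687.K2.Main2

/-!
Two split primes.
-/

set_option autoImplicit false
set_option linter.style.haveILetI false

open Finset

namespace Pool.Agent.Y700

open Pool.Agent.W97.MT (ap E14 affCount IsGloballyMinimal II)
open Pool.Agent.Y687 (Inert Split cnt SS Symb2 NN)
open Pool.Agent.TH841.SH Pool.Agent.Y668

theorem exists_symb2' : ∃ (s : ℚ → ℤ) (L : PeriodPair) (Op Om : ℝ), 0 < Op ∧ 0 < Om ∧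
    L.g₂ = -215 / 12 ∧ L.g₃ = 5291 / 216 ∧
    (∀ w : ℂ, w ∈ L.lattice ↔ ∃ a b : ℤ, 2 ∣ a - b ∧ w = a * Op + b * Om * Complex.I) ∧
    Symb2 s (fun q => ap E14 q) ∧ ∀ r : ℚ, (3 : ℝ) * (II r).re = s r * Op := by
  obtain ⟨s, L, Op, Om, hOp, hOm, g2, g3, hL, hs, hv⟩ := exists_symb'
  refine ⟨s, L, Op, Om, hOp, hOm, g2, g3, hL, ⟨hs, fun hdet _ _ hc =>
    Pool.Agent.Y687.symb_aff hOp hv hdet hc, Pool.Agent.Y687.ap3, ?_⟩, hv⟩
  exact (Pool.Agent.Y687.II_facts 5 (by norm_num) (by norm_num) (by norm_num)).2.2.2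

/-- the `2`-adic valuation of the sum of the symbols -/
theorem SS_val2 {s : ℚ → ℤ} {a : ℕ → ℤ} (hs : Symb2 s a) {p1 p2 : ℕ} (h1 : Pool.Agent.Y687.SP a p1)
    (h2 : Pool.Agent.Y687.SP a p2) (hne : p1 ≠ p2) {S : Finset ℕ}
    (hS : ∀ q ∈ S, Pool.Agent.Y687.isII a q) (hp1S : p1 ∉ S) (hp2S : p2 ∉ S)
    (hN : (jacobiSym p1 p2 = 1 ∧ ¬ (8 : ℤ) ∣ a p1 - 2 * jacobiSym p1 (∏ q ∈ S, q) ∧
        ¬ (8 : ℤ) ∣ a p2 - 2 * jacobiSym p2 (∏ q ∈ S, q)) ∨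
      (jacobiSym p1 p2 = -1 ∧ (¬ (8 : ℤ) ∣ a p1 - 2 * jacobiSym p1 (∏ q ∈ S, q) ∨
        ¬ (8 : ℤ) ∣ a p2 - 2 * jacobiSym p2 (∏ q ∈ S, q)))) :
    ∃ o : ℤ, Odd o ∧ SS s (p1 * p2 * ∏ q ∈ S, q) (p1 * p2 * ∏ q ∈ S, q) = 2 ^ (S.card + 4) * o := by
  classical
  have hprime : ∀ T ⊆ S, ∀ q ∈ T, q.Prime := fun T hT q hq => (hS q (hT hq)).1
  obtain ⟨x1, hx1⟩ : ∃ x1 : Finset ℕ → ℤ, ∀ T ⊆ S,
      a p1 - 2 * jacobiSym p1 (∏ q ∈ T, q) = 4 * x1 T := by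
    refine ⟨fun T => (a p1 - 2 * jacobiSym p1 (∏ q ∈ T, q)) / 4, fun T hT => ?_⟩
    obtain ⟨x, hx⟩ := h1.xx (hprime T hT) (fun h => hp1S (hT h))
    show _ = 4 * ((a p1 - 2 * jacobiSym p1 (∏ q ∈ T, q)) / 4)
    rw [hx]
    omega
  obtain ⟨x2, hx2⟩ : ∃ x2 : Finset ℕ → ℤ, ∀ T ⊆ S,
      a p2 - 2 * jacobiSym p2 (∏ q ∈ T, q) = 4 * x2 T := by
    refine ⟨fun T => (a p2 - 2 * jacobiSym p2 (∏ q ∈ T, q)) / 4, fun T hT => ?_⟩
    obtain ⟨x, hx⟩ := h2.xx (hprime T hT) (fun h => hp2S (hT h))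
    show _ = 4 * ((a p2 - 2 * jacobiSym p2 (∏ q ∈ T, q)) / 4)
    rw [hx]
    omega
  have h12 : p1 ∉ insert p2 S := by
    rw [Finset.mem_insert, not_or]
    exact ⟨hne, hp1S⟩
  have key : ∀ ε : ℤ, ((jacobiSym p1 p2 = 1 ∧ ε = 0) ∨ (jacobiSym p1 p2 = -1 ∧ ε = 1)) →
      ∃ k : ℤ, SS s (p1 * p2 * ∏ q ∈ S, q) (p1 * p2 * ∏ q ∈ S, q) =
        2 ^ (S.card + 4) * (x1 S * x2 S + ε * (x1 S + x2 S) + 2 * k) := by
    intro ε hε
    obtain ⟨k, hk⟩ := Pool.Agent.Y687.sum_split2 hs h1 h2 hne hε x1 x2 S hS hp1S hp2S hx1 hx2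
    rw [Finset.prod_insert h12, Finset.prod_insert hp2S, ← mul_assoc] at hk
    exact ⟨k, hk⟩
  have odd1 : ¬ (8 : ℤ) ∣ a p1 - 2 * jacobiSym p1 (∏ q ∈ S, q) → Odd (x1 S) := by
    intro h3
    rw [← Int.not_even_iff_odd]
    rintro ⟨k, hk⟩
    apply h3
    rw [hx1 S (Finset.Subset.refl _)]
    exact ⟨k, by rw [hk]; ring⟩
  have odd2 : ¬ (8 : ℤ) ∣ a p2 - 2 * jacobiSym p2 (∏ q ∈ S, q) → Odd (x2 S) := by
    intro h3
    rw [← Int.not_even_iff_odd]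
    rintro ⟨k, hk⟩
    apply h3
    rw [hx2 S (Finset.Subset.refl _)]
    exact ⟨k, by rw [hk]; ring⟩
  rcases hN with ⟨hj, ha, hb⟩ | ⟨hj, hab⟩
  · obtain ⟨k, hk⟩ := key 0 (Or.inl ⟨hj, rfl⟩)
    obtain ⟨y1, hy1⟩ := odd1 ha
    obtain ⟨y2, hy2⟩ := odd2 hb
    exact ⟨_, ⟨2 * y1 * y2 + y1 + y2 + k, by rw [hy1, hy2]; ring⟩, hk⟩
  · obtain ⟨k, hk⟩ := key 1 (Or.inr ⟨hj, rfl⟩)
    refine ⟨_, ?_, hk⟩
    have e : x1 S * x2 S + 1 * (x1 S + x2 S) + 2 * k = (x1 S + 1) * (x2 S + 1) - 1 + 2 * k := by ring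
    rw [e]
    rcases hab with h | h
    · obtain ⟨y, hy⟩ := odd1 h
      exact ⟨(y + 1) * (x2 S + 1) - 1 + k, by rw [hy]; ring⟩
    · obtain ⟨y, hy⟩ := odd2 h
      exact ⟨(x1 S + 1) * (y + 1) - 1 + k, by rw [hy]; ring⟩

/-- the number of points of the twist -/
theorem NN_affCount {m p : ℕ} [Fact p.Prime] (h2 : p ≠ 2) (h3 : p ≠ 3) (hm : m % 4 = 1)
    (hpm : ¬ p ∣ m) : NN m p = affCount (WM m) p + 1 := by
  unfold NN
  rw [cnt_affCount h2 h3 hm hpm]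

/-- **the `2`-part of the formula**, two split primes -/
theorem main2 (tE : S_E0) (tIN : S_TIN) (tSP : S_TSP) (t2 : S_T2) (t7 : S_T7) (tO : S_OMEGA)
    (s1 : S_SEL1b) (s2 : S_SEL2b) (tM : S_MIN) {p1 p2 : ℕ} (hne : p1 ≠ p2) {S : Finset ℕ}
    (h1 : Split p1) (h2 : Split p2) (hS : ∀ q ∈ S, Inert q)
    (hN : Pool.Agent.Y687.Cond2 p1 p2 (∏ q ∈ S, q)) (W : WeierstrassCurve ℤ)
    (hW : W = WM ((p1 * p2 * ∏ q ∈ S, q : ℕ) : ℤ)) :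
    IsGloballyMinimal W ∧ Finite (EQ W).toAffine.Point ∧
    (∀ (n : ℕ) (x : Pool.Agent.TH841.SH.D.Sha (EQ W)), 2 ^ n • x = 0 → x = 0) ∧
    (∃ f, IsL W f) ∧ ∀ f, IsL W f → f 1 ≠ 0 ∧ ∃ u : ℚ, padicValRat 2 u = 0 ∧
      f 1 = (((u : ℝ) * (Omega W * tamProd W / (Nat.card (EQ W).toAffine.Point : ℝ) ^ 2) : ℝ) : ℂ) := by
  classical
  have hSp : ∀ q ∈ S, q.Prime := fun q hq => (hS q hq).1
  have hm4 := Pool.Agent.Y687.prod_mod_four hS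
  have : Fact p1.Prime := ⟨h1.1⟩
  have : Fact p2.Prime := ⟨h2.1⟩
  have hsq := Pool.Agent.Y687.two_sqf hne h1 h2 hS
  have p18 := h1.2.1
  have p28 := h2.2.1
  have hcop12 : Nat.Coprime p1 p2 := (Nat.coprime_primes h1.1 h2.1).2 hne
  have hj : jacobiSym p1 p2 = 1 ∨ jacobiSym p1 p2 = -1 := by
    refine jacobiSym.eq_one_or_neg_one ?_
    rw [Int.gcd_natCast_natCast]
    exact hcop12
  have hp10 : ((p1 : ℤ) : ZMod p2) ≠ 0 := by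
    rw [Ne, ZMod.intCast_zmod_eq_zero_iff_dvd, Int.natCast_dvd_natCast]
    intro h
    exact hne ((Nat.prime_dvd_prime_iff_eq h2.1 h1.1).1 h).symm
  have hj1 : jacobiSym p1 p2 = 1 ↔ IsSquare (p1 : ZMod p2) := by
    rw [← jacobiSym.legendreSym.to_jacobiSym, legendreSym.eq_one_iff _ hp10]
    push_cast
    exact Iff.rfl
  have sf := fun (p : ℕ) (hp : Split p) (h : ¬ 8 ∣ NN (∏ q ∈ S, q) p) =>
    Pool.Agent.Y687.split_facts hp hS h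
  -- the arithmetic conditions
  have hA : (jacobiSym p1 p2 = 1 ∧ ¬ (8 : ℤ) ∣ ap E14 p1 - 2 * jacobiSym p1 (∏ q ∈ S, q) ∧
        ¬ (8 : ℤ) ∣ ap E14 p2 - 2 * jacobiSym p2 (∏ q ∈ S, q)) ∨
      (jacobiSym p1 p2 = -1 ∧ (¬ (8 : ℤ) ∣ ap E14 p1 - 2 * jacobiSym p1 (∏ q ∈ S, q) ∨
        ¬ (8 : ℤ) ∣ ap E14 p2 - 2 * jacobiSym p2 (∏ q ∈ S, q))) := by
    rcases hN with ⟨a, b⟩ | ⟨a, b⟩
    · have a' := (sf p1 h1 a).1
      have b' := (sf p2 h2 b).1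
      rcases hj with h | h
      · exact Or.inl ⟨h, a', b'⟩
      · exact Or.inr ⟨h, Or.inl a'⟩
    · right
      refine ⟨hj.resolve_left fun h => a (hj1.1 h), ?_⟩
      rcases b with b | b
      · exact Or.inl (sf p1 h1 b).1
      · exact Or.inr (sf p2 h2 b).1
  have hc12 : IsSquare (p1 : ZMod p2) → Rt p1 (∏ q ∈ S, q) ∧ Rt p2 (∏ q ∈ S, q) := by
    intro h
    rcases hN with ⟨a, b⟩ | ⟨a, b⟩
    · exact ⟨(sf p1 h1 a).2, (sf p2 h2 b).2⟩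
    · exact absurd h a
  have hcor : Rt p1 (∏ q ∈ S, q) ∨ Rt p2 (∏ q ∈ S, q) := by
    rcases hN with ⟨a, b⟩ | ⟨a, b⟩
    · exact Or.inl (sf p1 h1 a).2
    · rcases b with b | b
      · exact Or.inl (sf p1 h1 b).2
      · exact Or.inr (sf p2 h2 b).2
  have H : Hy2 (∏ q ∈ S, q) p1 p2 := by
    refine ⟨hm4, h1.1, h2.1, p18, p28, ?_, ?_, by omega, by omega, ?_, ?_, hc12, hcor⟩
    · exact Int.squarefree_natCast.2 hsq
    · intro q hq hqm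
      obtain ⟨-, q8, q7⟩ := hS q (Pool.Agent.Y687.dvd_prod_primes hSp hq hqm)
      haveI : Fact q.Prime := ⟨hq⟩
      refine ⟨by omega, by omega, ?_, ?_⟩
      · rw [Pool.Agent.Y687.sq_seven q (by omega) (by omega)]
        omega
      · rw [Pool.Agent.Y687.sq_two q (by omega)]
        omega
    · exact (Pool.Agent.Y687.sq_seven p1 (by omega) (by omega)).2 h1.2.2
    · exact (Pool.Agent.Y687.sq_seven p2 (by omega) (by omega)).2 h2.2.2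
  have hM4 : (p1 * p2 * ∏ q ∈ S, q) % 4 = 1 := by
    rw [Nat.mul_mod, Nat.mul_mod p1 p2, hm4]
    have e1 : p1 % 4 = 1 := by omega
    have e2 : p2 % 4 = 1 := by omega
    rw [e1, e2]
  have hpos : 0 < ∏ q ∈ S, q := by omega
  have hgt : 1 < p1 * p2 * ∏ q ∈ S, q := by
    have := h1.1.one_lt
    have := h2.1.pos
    nlinarith [Nat.mul_pos this hpos]
  have h17 := h1.2.2
  have h27 := h2.2.2
  have h14 : Nat.Coprime (p1 * p2 * ∏ q ∈ S, q) 14 := by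
    rw [show (14 : ℕ) = 2 * 7 by norm_num]
    have key : ∀ l : ℕ, l.Prime → l ≠ p1 → l ≠ p2 → l ∉ S →
        Nat.Coprime (p1 * p2 * ∏ q ∈ S, q) l := by
      intro l hl k1 k2 k3
      rw [Nat.coprime_comm, Nat.Prime.coprime_iff_not_dvd hl, hl.dvd_mul, hl.dvd_mul, not_or, not_or]
      exact ⟨⟨fun h => k1 ((Nat.prime_dvd_prime_iff_eq hl h1.1).1 h),
        fun h => k2 ((Nat.prime_dvd_prime_iff_eq hl h2.1).1 h)⟩,
        fun h => k3 (Pool.Agent.Y687.dvd_prod_primes hSp hl h)⟩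
    refine Nat.Coprime.mul_right (key 2 Nat.prime_two (by omega) (by omega) ?_)
      (key 7 (by norm_num) (by omega) (by omega) ?_)
    · intro h
      have := (hS 2 h).2.1
      omega
    · intro h
      have := (hS 7 h).2.1
      omega
  obtain ⟨s, L, Op, Om, hOp, hOm, g2, g3, hL, hsym, hs⟩ := exists_symb2'
  obtain ⟨o1, ho1, e1⟩ := SS_val2 hsym (Pool.Agent.Y687.split_sp h1) (Pool.Agent.Y687.split_sp h2) hne
    (fun q hq => Pool.Agent.Y687.II_facts q (hS q hq).1 (hS q hq).2.1 (hS q hq).2.2)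
    (Pool.Agent.Y687.split_notMem h1 hS) (Pool.Agent.Y687.split_notMem h2 hS) hA
  obtain ⟨o3, ho3, e3⟩ := tam_gen tE tIN tSP t2 t7 (P := {p1, p2}) (S := S)
    (M := p1 * p2 * ∏ q ∈ S, q) (by
      intro q hq
      rcases Finset.mem_insert.1 hq with rfl | hq
      · exact ⟨h1.1, by omega, by omega, H.sev1⟩
      · rw [Finset.mem_singleton] at hq
        subst hq
        exact ⟨h2.1, by omega, by omega, H.sev2⟩) (by
      intro q hq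
      have h3 := H.two q (hSp q hq) (Finset.dvd_prod_of_mem _ hq)
      exact ⟨hSp q hq, h3.1, h3.2.1, h3.2.2.1⟩) (by rw [Finset.prod_pair hne]) hM4 H.sqf
  obtain ⟨a1, a2, k, hk, a3⟩ := alg_M (M := ((p1 * p2 * ∏ q ∈ S, q : ℕ) : ℤ)) (by omega) (by
      intro z hz hz0 hpc
      refine s1 _ p1 p2 H z hz hz0 (fun l _ => ?_)
      have h5 := hpc l
      rw [Nat.cast_mul, Nat.cast_mul] at h5
      exact h5) (by
      intro z hz hpc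
      refine s2 _ p1 p2 H z hz (fun l _ => ?_)
      have h5 := hpc l
      rw [Nat.cast_mul, Nat.cast_mul] at h5
      exact h5)
  have hcard : ({p1, p2} : Finset ℕ).card = 2 := Finset.card_pair hne
  rw [hcard] at e3
  obtain ⟨c1, c2, c3⟩ := concl tO tM hM4 hgt H.sqf h14 hOp hOm g2 g3 hL hs ho1 e1 ho3 e3 hk a3
  subst hW
  exact ⟨c1, a2, a1, c2, c3⟩

end Pool.Agent.Y700
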