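import Mathlib
import Pool.Agent.Y668.CP
import Pool.Agent.Y687.Desc3

/-!
# A 2-isogeny Selmer group of order four: rank zero, no 2-torsion in the Tate-Shafarevich group
-/

set_option autoImplicit false

namespace Pool.Agent.Y700

open WeierstrassCurve

open scoped Classical

open Pool.Agent.W262.SH (QB Pt act IsCoc IsCob LocTriv shaCoc cob Sha)
open Pool.Agent.TH841.SH Pool.Agent.Y668

/-! ### Groups -/

theorem odd_of_inj {H : Type*} [AddCommGroup H] [Finite H] (h : ∀ x : H, x + x = 0 → x = 0) :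
    Odd (Nat.card H) := by
  by_contra hne
  rw [Nat.not_odd_iff_even, even_iff_two_dvd] at hne
  have : Fact (Nat.Prime 2) := ⟨Nat.prime_two⟩
  obtain ⟨x, hx⟩ := exists_prime_addOrderOf_dvd_card' 2 hne
  have h1 : x + x = 0 := by
    rw [← two_nsmul, ← hx]
    exact addOrderOf_nsmul_eq_zero x
  rw [h x h1, addOrderOf_zero] at hx
  omega

theorem two_part {G : Type*} [AddCommGroup G] [Finite G] (T : G) (hT0 : T ≠ 0) (hT : T + T = 0)
    (huniq : ∀ x : G, x + x = 0 → x = 0 ∨ x = T) (h4 : ∀ x : G, x + x ≠ T) :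
    ∃ k, Odd k ∧ Nat.card G = 2 * k := by
  let D : G →+ G := { toFun := fun x => x + x, map_zero' := add_zero 0, map_add' := fun x y => by abel }
  have e2 : Nat.card G = Nat.card D.range * Nat.card D.ker := by
    rw [AddSubgroup.card_eq_card_quotient_mul_card_addSubgroup D.ker]
    congr 1
    exact Nat.card_congr (QuotientAddGroup.quotientKerEquivRange D).toEquiv
  have hker : Nat.card D.ker = 2 := by
    have : (D.ker : Set G) = {0, T} := by
      ext x
      simp only [SetLike.mem_coe, AddMonoidHom.mem_ker, Set.mem_insert_iff, Set.mem_singleton_iff]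
      constructor
      · exact huniq x
      · rintro (rfl | rfl)
        · exact add_zero 0
        · exact hT
    have h2 : Nat.card (D.ker : Set G) = 2 := by
      rw [this, Nat.card_coe_set_eq, Set.ncard_pair hT0.symm]
    exact h2
  have hodd : Odd (Nat.card D.range) := by
    apply odd_of_inj
    rintro ⟨x, y, rfl⟩ hx
    have hx' : D y + D y = 0 := congrArg Subtype.val hx
    rcases huniq _ hx' with h | h
    · exact Subtype.ext h
    · exact absurd h (h4 y)
  exact ⟨_, hodd, by rw [e2, hker, mul_comm]⟩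

/-! ### The Selmer cocycles -/

section

variable {a b : ℚ}

/-- two cocycles `σ Q - Q` that agree -/
lemma diff_rat {W : WeierstrassCurve ℚ} {j : W.toAffine.Point →+ Pt W QB}
    (hj : Function.Injective j)
    (hjf : ∀ P : Pt W QB, (∀ σ : QB ≃ₐ[ℚ] QB, act W σ.toAlgHom P = P) → ∃ q, j q = P)
    {g g' : W.toAffine.Point} {Q Q' : Pt W QB} (hQ : j g = Q + Q) (hQ' : j g' = Q' + Q')
    (h : ∀ σ : QB ≃ₐ[ℚ] QB, act W σ.toAlgHom Q - Q = act W σ.toAlgHom Q' - Q') :
    ∃ q, g = g' + (q + q) := by
  obtain ⟨q, hq⟩ := hjf (Q - Q') (by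
    intro σ
    have e4 := h σ
    rw [map_sub]
    have e5 : act W σ.toAlgHom Q = act W σ.toAlgHom Q' - Q' + Q := by
      rw [← e4]
      abel
    rw [e5]
    abel)
  refine ⟨q, hj ?_⟩
  rw [map_add, map_add, hq, hQ, hQ']
  abel

theorem count (hb : b ≠ 0) (hab : a ^ 2 - 4 * b ≠ 0) (hsq : ¬ IsSquare (a ^ 2 - 4 * b))
    (hbs : ¬ IsSquare b) (hfin : Finite (selCoc (Wt a b))) (hcard : Nat.card (selCoc (Wt a b)) ≤ 4) :
    (∀ x : Sha (Wt a b), x + x = 0 → x = 0) ∧ Finite (Wt a b).toAffine.Point ∧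
      ∃ k, Odd k ∧ Nat.card (Wt a b).toAffine.Point = 2 * k := by
  obtain ⟨e1, e2, hp12, hR, hne⟩ := exists_roots QB a b
  obtain ⟨n1, n2, n12⟩ := hne hb hab
  obtain ⟨j, hj, hjσ, hjf⟩ := exists_rat (Wt a b)
  have h2 : (2 : QB) ≠ 0 := two_ne_zero
  -- the roots are not rational
  have hirr : ∀ x : ℚ, algebraMap ℚ QB x ≠ e1 := by
    intro x hx
    apply hsq
    have hsum : e1 + e2 = -algebraMap ℚ QB a := by
      have h10 := hR.h2
      have h11 : ((Wt a b).baseChange QB).a₂ = algebraMap ℚ QB a := rfl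
      rw [h11] at h10
      linear_combination h10
    refine ⟨2 * x + a, (algebraMap ℚ QB).injective ?_⟩
    simp only [map_sub, map_mul, map_pow, map_add, map_ofNat]
    rw [← hp12, hx]
    have : algebraMap ℚ QB a = -(e1 + e2) := by linear_combination hsum
    rw [this]
    ring
  -- the point `(e1, 0)`
  have hn1 : ((Wt a b).baseChange QB).toAffine.Nonsingular e1 0 := hR.nons h2 n1 n2 n12 (by ring)
  set P1 : Pt (Wt a b) QB := .some e1 0 hn1 with hP1
  have hP1' : P1 + P1 = 0 := (hR.rot.add_self h2 hn1).2 rfl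
  have hc : ∀ (g : (Wt a b).toAffine.Point) (Q : Pt (Wt a b) QB), j g = Q + Q →
      (fun σ : QB ≃ₐ[ℚ] QB => act (Wt a b) σ.toAlgHom Q - Q) ∈ selCoc (Wt a b) := by
    intro g Q hQ
    apply cob_selCoc
    intro σ
    have e3 : act (Wt a b) σ.toAlgHom Q - Q + (act (Wt a b) σ.toAlgHom Q - Q) =
      (act (Wt a b) σ.toAlgHom Q + act (Wt a b) σ.toAlgHom Q) - (Q + Q) := by abel
    rw [e3, ← map_add, ← hQ, hjσ, sub_self]
  -- the point `(0, 0)`
  have hnT : (Wt a b).toAffine.Nonsingular 0 0 := by
    rw [Affine.nonsingular_iff]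
    refine ⟨?_, Or.inl ?_⟩
    · rw [Affine.equation_iff]
      show (0 : ℚ) ^ 2 + 0 * 0 * 0 + 0 * 0 = 0 ^ 3 + a * 0 ^ 2 + b * 0 + 0
      ring
    · show (0 : ℚ) * 0 ≠ 3 * 0 ^ 2 + 2 * a * 0 + b
      intro h
      apply hb
      linear_combination -h
  set T : (Wt a b).toAffine.Point := .some 0 0 hnT with hT
  have hT0 : T ≠ 0 := Affine.Point.some_ne_zero _
  have hTT : T + T = 0 := by
    apply Affine.Point.add_self_of_Y_eq
    show (0 : ℚ) = -0 - 0 * 0 - 0
    ring
  -- `T` is not twice a point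
  have h4 : ∀ x : (Wt a b).toAffine.Point, x + x ≠ T := by
    intro x hx
    rcases x with _ | ⟨u, v, hn⟩
    · exact hT0 (hx.symm.trans (add_zero _))
    · by_cases hv : v = v - 2 * v
      · have hv0 : v = 0 := by linarith
        have : (Affine.Point.some u v hn : (Wt a b).toAffine.Point) + .some u v hn = 0 := by
          apply Affine.Point.add_self_of_Y_eq
          show v = -v - 0 * u - 0
          rw [hv0]; ring
        rw [this] at hx
        exact hT0 hx.symm
      · have hY : v ≠ (Wt a b).toAffine.negY u v := by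
          show v ≠ -v - 0 * u - 0
          intro h; apply hv; linarith
        have hv0 : v ≠ 0 := fun h => hv (by rw [h]; ring)
        have he : v ^ 2 = u ^ 3 + a * u ^ 2 + b * u := by
          have := hn.1
          rw [Affine.equation_iff] at this
          have h' : v ^ 2 + 0 * u * v + 0 * v = u ^ 3 + a * u ^ 2 + b * u + 0 := this
          linear_combination h'
        rw [Affine.Point.add_self_of_Y_ne hY, hT, Affine.Point.some.injEq] at hx
        obtain ⟨hx1, -⟩ := hx
        rw [Affine.slope_of_Y_ne rfl hY] at hx1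
        have hx2 : ((3 * u ^ 2 + 2 * a * u + b - 0 * v) / (v - (-v - 0 * u - 0))) ^ 2 +
          0 * ((3 * u ^ 2 + 2 * a * u + b - 0 * v) / (v - (-v - 0 * u - 0))) - a - u - u = 0 := hx1
        apply hbs
        refine ⟨u, ?_⟩
        have e0 : v - (-v - 0 * u - 0) = 2 * v := by ring
        rw [e0] at hx2
        have hv2 : (2 * v) ≠ 0 := mul_ne_zero two_ne_zero hv0
        have hx3 : (3 * u ^ 2 + 2 * a * u + b) ^ 2 - (a + 2 * u) * (4 * v ^ 2) = 0 := by
          field_simp at hx2
          linear_combination hx2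
        have hx4 : (u ^ 2 - b) ^ 2 = 0 := by
          rw [he] at hx3
          linear_combination hx3
        have := pow_eq_zero_iff (two_ne_zero) |>.1 hx4
        linear_combination -this
  obtain ⟨QT, hQT⟩ := hR.div h2 n1 n2 n12 (j T)
  have hz : j (0 : (Wt a b).toAffine.Point) = P1 + P1 := by rw [hP1', map_zero]
  set f1 : selCoc (Wt a b) := ⟨_, hc 0 P1 hz⟩ with hf1
  set f2 : selCoc (Wt a b) := ⟨_, hc T QT hQT⟩ with hf2
  have hQ12 : j T = (P1 + QT) + (P1 + QT) := by
    have : (P1 + QT) + (P1 + QT) = (P1 + P1) + (QT + QT) := by abel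
    rw [this, hP1', zero_add, hQT]
  have hf12 : ∀ σ : QB ≃ₐ[ℚ] QB, ((f1 + f2 : selCoc (Wt a b)) : (QB ≃ₐ[ℚ] QB) → Pt (Wt a b) QB) σ =
      act (Wt a b) σ.toAlgHom (P1 + QT) - (P1 + QT) := by
    intro σ
    show (act (Wt a b) σ.toAlgHom P1 - P1) + (act (Wt a b) σ.toAlgHom QT - QT) = _
    rw [map_add]
    abel
  have hT2 : ∀ q : (Wt a b).toAffine.Point, T ≠ 0 + (q + q) := by
    intro q hq
    rw [zero_add] at hq
    exact h4 q hq.symm
  have k1 : f1 ≠ 0 := by
    intro h
    have h' : ∀ σ : QB ≃ₐ[ℚ] QB, σ e1 = e1 := by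
      intro σ
      have h5 : act (Wt a b) σ.toAlgHom P1 - P1 = 0 := congrFun (congrArg Subtype.val h) σ
      rw [sub_eq_zero, hP1, act_some, Affine.Point.some.injEq] at h5
      exact h5.1
    obtain ⟨y, hy⟩ := fix_mem (K := ℚ) e1 h'
    exact hirr y hy
  have hz0 : j (0 : (Wt a b).toAffine.Point) = 0 + 0 := by rw [map_zero, add_zero]
  have k2 : f2 ≠ 0 := by
    intro h
    obtain ⟨q, hq⟩ := diff_rat hj hjf hQT hz0 (fun σ => by
      have h5 : act (Wt a b) σ.toAlgHom QT - QT = 0 := congrFun (congrArg Subtype.val h) σ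
      rw [h5, map_zero, sub_zero])
    exact hT2 q hq
  have k3 : f2 ≠ f1 := by
    intro h
    obtain ⟨q, hq⟩ := diff_rat hj hjf hQT hz (fun σ => congrFun (congrArg Subtype.val h) σ)
    exact hT2 q hq
  have two0 : ∀ f : selCoc (Wt a b), f + f = 0 := by
    intro f
    apply Subtype.ext
    funext σ
    exact f.2.2.1 σ
  have k4 : f1 + f2 ≠ 0 := by
    intro h
    apply k3
    have : f2 = f1 + f2 - f1 := by abel
    rw [this, h, zero_sub]
    exact neg_eq_of_add_eq_zero_left (two0 f1)
  have k5 : f1 + f2 ≠ f1 := fun h => k2 (add_eq_left.1 h)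
  have k6 : f1 + f2 ≠ f2 := fun h => k1 (add_eq_right.1 h)
  have : Fintype (selCoc (Wt a b)) := Fintype.ofFinite _
  have hall : ∀ f : selCoc (Wt a b), f = 0 ∨ f = f1 ∨ f = f2 ∨ f = f1 + f2 := by
    set S : Finset (selCoc (Wt a b)) := {0, f1, f2, f1 + f2} with hS
    have hS4 : S.card = 4 := by
      rw [hS, Finset.card_insert_of_notMem, Finset.card_insert_of_notMem,
        Finset.card_insert_of_notMem, Finset.card_singleton]
      · simp only [Finset.mem_singleton]
        exact fun h => k6 h.symm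
      · simp only [Finset.mem_insert, Finset.mem_singleton, not_or]
        exact ⟨fun h => k3 h.symm, fun h => k5 h.symm⟩
      · simp only [Finset.mem_insert, Finset.mem_singleton, not_or]
        exact ⟨fun h => k1 h.symm, fun h => k2 h.symm, fun h => k4 h.symm⟩
    have hSu : S = Finset.univ := by
      apply Finset.eq_univ_of_card
      apply le_antisymm (Finset.card_le_univ _)
      rw [hS4, ← Nat.card_eq_fintype_card]
      exact hcard
    intro f
    have hf : f ∈ S := by rw [hSu]; exact Finset.mem_univ _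
    simpa [hS] using hf
  -- halving
  have hhalf : ∀ g : (Wt a b).toAffine.Point, (∃ q, g = 0 + (q + q)) ∨ ∃ q, g = T + (q + q) := by
    intro g
    obtain ⟨Q, hQ⟩ := hR.div h2 n1 n2 n12 (j g)
    rcases hall ⟨_, hc g Q hQ⟩ with h | h | h | h
    · left
      refine diff_rat hj hjf hQ hz0 (fun σ => ?_)
      have h5 : act (Wt a b) σ.toAlgHom Q - Q = 0 := congrFun (congrArg Subtype.val h) σ
      rw [h5, map_zero, sub_zero]
    · left
      exact diff_rat hj hjf hQ hz (fun σ => congrFun (congrArg Subtype.val h) σ)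
    · right
      exact diff_rat hj hjf hQ hQT (fun σ => congrFun (congrArg Subtype.val h) σ)
    · right
      refine diff_rat hj hjf hQ hQ12 (fun σ => ?_)
      have h5 := congrFun (congrArg Subtype.val h) σ
      rw [← hf12 σ]
      exact h5
  have hfg : AddGroup.FG (Wt a b).toAffine.Point := fg_Wt hb hab
  have hfinE : Finite (Wt a b).toAffine.Point := by
    refine Pool.Agent.Y687.finite_of_halving hfg T (by rw [two_nsmul]; exact hTT) (fun P => ?_)
    rcases hhalf P with ⟨q, hq⟩ | ⟨q, hq⟩
    · exact ⟨q, Or.inl (by rw [two_nsmul, hq, zero_add])⟩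
    · refine ⟨q, Or.inr ?_⟩
      rw [two_nsmul, hq]
      have : T + (q + q) + T = (T + T) + (q + q) := by abel
      rw [this, hTT, zero_add]
  refine ⟨?_, hfinE, ?_⟩
  · intro x hx
    obtain ⟨f, rfl⟩ := (toShaC_range hR n1 n2 n12 x).2 hx
    have hm : ∀ (g : (Wt a b).toAffine.Point) (Q : Pt (Wt a b) QB) (hQ : j g = Q + Q),
        toShaC (Wt a b) ⟨_, hc g Q hQ⟩ = 0 := by
      intro g Q hQ
      rw [← AddMonoidHom.mem_ker, toShaC_ker]
      exact ⟨Q, fun σ => rfl⟩
    rcases hall f with h | h | h | h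
    · rw [h, map_zero]
    · rw [h]; exact hm 0 P1 hz
    · rw [h]; exact hm T QT hQT
    · rw [h, map_add]
      have e1 := hm 0 P1 hz
      have e2 := hm T QT hQT
      rw [hf1, hf2, e1, e2, add_zero]
  · refine two_part T hT0 hTT ?_ h4
    intro x hx
    rcases x with _ | ⟨u, v, hn⟩
    · left; rfl
    · right
      have hv0 : v = 0 := by
        by_contra hv
        have hY : v ≠ (Wt a b).toAffine.negY u v := by
          show v ≠ -v - 0 * u - 0
          intro h; apply hv; linarith
        rw [Affine.Point.add_self_of_Y_ne hY] at hx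
        exact Affine.Point.some_ne_zero _ hx
      subst hv0
      have he : (0 : ℚ) ^ 2 = u ^ 3 + a * u ^ 2 + b * u := by
        have := hn.1
        rw [Affine.equation_iff] at this
        have h' : (0 : ℚ) ^ 2 + 0 * u * 0 + 0 * 0 = u ^ 3 + a * u ^ 2 + b * u + 0 := this
        linear_combination h'
      have hu0 : u = 0 := by
        by_contra hu
        have h7 : u ^ 2 + a * u + b = 0 := by
          have h8 : u * (u ^ 2 + a * u + b) = 0 := by linear_combination -he
          exact (mul_eq_zero.1 h8).resolve_left hu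
        apply hsq
        exact ⟨2 * u + a, by linear_combination -4 * h7⟩
      subst hu0
      rfl

end

end Pool.Agent.Y700
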