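import Pool.Agent.Y700.Defs
import Pool.Agent.Y700.Count
import Pool.Agent.Y700.ShaVC

/-!
The number of the Selmer cocycles of the twists.
-/

set_option autoImplicit false

namespace Pool.Agent.Y700

open WeierstrassCurve

open scoped Classical

open Pool.Agent.W262.SH (QB Pt act IsCoc IsCob LocTriv shaCoc cob Sha)
open Pool.Agent.TH841.SH Pool.Agent.Y668

/-- a real point that is not killed by four -/
lemma exists_SR {a b : ℤ} (hb : b ≠ 0) (hab : a ^ 2 - 4 * b ≠ 0) :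
    ∃ S : Pt (Wt (a : ℚ) (b : ℚ)) (AlgebraicClosure ℝ),
      (∀ τ : AlgebraicClosure ℝ ≃ₐ[ℝ] AlgebraicClosure ℝ,
        act (Wt (a : ℚ) (b : ℚ)) (τ.toAlgHom.restrictScalars ℚ) S = S) ∧
      (S + S) + (S + S) ≠ 0 := by
  by_contra hcon
  push Not at hcon
  obtain ⟨e1, e2, hp12, hR, hne⟩ := exists_roots (AlgebraicClosure ℝ) (a : ℚ) (b : ℚ)
  obtain ⟨n1, n2, n12⟩ := hne (by exact_mod_cast hb) (by exact_mod_cast hab)
  set X : ℕ → ℝ := fun m => |(a : ℝ)| + |(b : ℝ)| + 1 + m with hX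
  have hex : ∀ m : ℕ, ∃ y : ℝ, y ^ 2 = (X m) ^ 3 + (a : ℝ) * (X m) ^ 2 + b * X m := by
    intro m
    refine ⟨Real.sqrt ((X m) ^ 3 + (a : ℝ) * (X m) ^ 2 + b * X m), Real.sq_sqrt ?_⟩
    have h1 : 1 ≤ X m := by
      have := abs_nonneg (a : ℝ)
      have := abs_nonneg (b : ℝ)
      have : (0 : ℝ) ≤ m := Nat.cast_nonneg m
      simp only [hX]
      linarith
    have h2 : |(a : ℝ)| + |(b : ℝ)| ≤ X m := by
      have : (0 : ℝ) ≤ m := Nat.cast_nonneg m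
      simp only [hX]
      linarith
    have ha := neg_abs_le (a : ℝ)
    have hb' := neg_abs_le (b : ℝ)
    have e : (X m) ^ 3 + (a : ℝ) * (X m) ^ 2 + b * X m = X m * (X m ^ 2 + a * X m + b) := by ring
    rw [e]
    refine mul_nonneg (by linarith) ?_
    nlinarith [mul_nonneg (by linarith : (0 : ℝ) ≤ X m) (by linarith : (0 : ℝ) ≤ X m - |(a : ℝ)| - |(b : ℝ)|),
      mul_nonneg (by linarith : (0 : ℝ) ≤ X m - 1) (abs_nonneg (b : ℝ)),
      mul_nonneg (by linarith : (0 : ℝ) ≤ X m) (by linarith : (0 : ℝ) ≤ a + |(a : ℝ)|)]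
  choose y hy using hex
  set j := algebraMap ℝ (AlgebraicClosure ℝ) with hj
  have hn : ∀ m : ℕ, ((Wt (a : ℚ) (b : ℚ)).baseChange
      (AlgebraicClosure ℝ)).toAffine.Nonsingular (j (X m)) (j (y m)) := by
    intro m
    apply hR.nons two_ne_zero n1 n2 n12
    have hsum : e1 + e2 = -(a : AlgebraicClosure ℝ) := by
      have h10 := hR.h2
      have h11 : ((Wt (a : ℚ) (b : ℚ)).baseChange (AlgebraicClosure ℝ)).a₂ =
        algebraMap ℚ _ (a : ℚ) := rfl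
      rw [h11, map_intCast] at h10
      linear_combination h10
    have hprod : e1 * e2 = (b : AlgebraicClosure ℝ) := by rw [hp12, map_intCast]
    rw [← map_pow, hy m, map_add, map_add, map_mul, map_mul, map_pow, map_pow, map_intCast,
      map_intCast, ← hprod]
    generalize j (X m) = X
    linear_combination (X ^ 2) * hsum
  let S : ℕ → Pt (Wt (a : ℚ) (b : ℚ)) (AlgebraicClosure ℝ) := fun m =>
    .some (j (X m)) (j (y m)) (hn m)
  have hS4 : ∀ m, (S m + S m) + (S m + S m) = 0 := by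
    intro m
    apply hcon
    intro τ
    show act (Wt (a : ℚ) (b : ℚ)) (τ.toAlgHom.restrictScalars ℚ) (.some _ _ (hn m)) = _
    rw [act_some, Affine.Point.some.injEq]
    exact ⟨τ.commutes _, τ.commutes _⟩
  have hinj : Function.Injective S := by
    intro m n hmn
    have h3 := (Affine.Point.some.injEq _ _ _ _ _ _).mp hmn
    have h4 := (algebraMap ℝ (AlgebraicClosure ℝ)).injective h3.1
    simp only [hX] at h4
    have h5 : (m : ℝ) = n := by linarith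
    exact_mod_cast h5
  exact Set.infinite_of_injective_forall_mem hinj hS4 (four_fin hR two_ne_zero)

/-- the number of the Selmer cocycles -/
theorem card_sel {a b : ℤ} (hb : b ≠ 0) (hab : a ^ 2 - 4 * b < 0) {S1 S2 : Set ℤ}
    (hf1 : S1.Finite) (hf2 : S2.Finite)
    (h1 : ∀ z : ℤ, Squarefree z → 0 < z → (∀ (p : ℕ) [Fact p.Prime], PC a b p z) → z ∈ S1)
    (h2 : ∀ z : ℤ, Squarefree z → (∀ (p : ℕ) [Fact p.Prime], PC (-2 * a) (a ^ 2 - 4 * b) p z) →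
      z ∈ S2) :
    Finite (selCoc (Wt (a : ℚ) (b : ℚ))) ∧
      Nat.card (selCoc (Wt (a : ℚ) (b : ℚ))) ≤ S1.ncard * S2.ncard := by
  have qb : (b : ℚ) ≠ 0 := by exact_mod_cast hb
  have hab' : a ^ 2 - 4 * b ≠ 0 := hab.ne
  have qab : (a : ℚ) ^ 2 - 4 * (b : ℚ) ≠ 0 := by exact_mod_cast hab'
  obtain ⟨e1, e2, hp12, hR, hne⟩ := exists_roots QB (a : ℚ) (b : ℚ)
  obtain ⟨n1, n2, n12⟩ := hne qb qab
  refine card_selCoc hR n1 n2 n12 hf1 hf2 ?_ ?_
  · intro f hf z hz hse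
    obtain ⟨s, hs⟩ := IsAlgClosed.exists_pow_nat_eq ((z : ℤ) : QB) (n := 2) (by norm_num)
    apply h1 z hz
    · obtain ⟨x, y, hy, hxy, r, hr⟩ := loc_z1 (K := ℝ) (Ω := AlgebraicClosure ℝ) two_ne_zero
        qb qab f hf.2.1 hf.2.2.2.2 (exists_SR hb hab') z s hs (hse s hs)
      rw [map_intCast, map_intCast] at hxy
      have habR : (a : ℝ) ^ 2 - 4 * b < 0 := by exact_mod_cast hab
      have hq : 0 < x ^ 2 + a * x + b := by nlinarith [sq_nonneg (2 * x + a)]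
      have hx : 0 < x := by
        have h3 : 0 < x * (x ^ 2 + a * x + b) := by
          have h4 : 0 < y ^ 2 := by positivity
          have e : x * (x ^ 2 + a * x + b) = y ^ 2 := by rw [hxy]; ring
          rw [e]
          exact h4
        exact (pos_iff_pos_of_mul_pos h3).2 hq
      have h5 : 0 ≤ x * (z : ℝ) := by rw [hr]; exact mul_self_nonneg r
      have h6 : (0 : ℝ) ≤ z := by
        by_contra hneg
        push Not at hneg
        have := mul_neg_of_pos_of_neg hx hneg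
        linarith
      have h7 : z ≠ 0 := hz.ne_zero
      have h8 : 0 ≤ z := by exact_mod_cast h6
      omega
    · intro p _
      obtain ⟨x, y, hy, hxy, hsq⟩ := loc_z1 (K := ℚ_[p]) (Ω := AlgebraicClosure ℚ_[p])
        two_ne_zero qb qab f hf.2.1 (hf.2.2.2.1 p) (exists_S p hb hab') z s hs (hse s hs)
      refine ⟨x, y, hy, ?_, hsq⟩
      rw [hxy, map_intCast, map_intCast]
  · intro f hf hX z hz hse
    obtain ⟨s, hs⟩ := IsAlgClosed.exists_pow_nat_eq ((z : ℤ) : QB) (n := 2) (by norm_num)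
    apply h2 z hz
    intro p _
    obtain ⟨x, y, hy, hxy, hsq⟩ := loc_z2 (K := ℚ_[p]) (Ω := AlgebraicClosure ℚ_[p]) two_ne_zero
      qb qab f hf.2.1 hX (hf.2.2.2.1 p) (exists_S p hb hab') z s hs (hse s hs)
    refine ⟨x, y, hy, ?_, hsq⟩
    rw [hxy]
    have k1 : (-2 : ℚ) * (a : ℚ) = ((-2 * a : ℤ) : ℚ) := by push_cast; ring
    have k2 : (a : ℚ) ^ 2 - 4 * (b : ℚ) = ((a ^ 2 - 4 * b : ℤ) : ℚ) := by push_cast; ring
    rw [k1, k2, map_intCast, map_intCast]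

/-- the change of equations -/
theorem vr_WM {M : ℤ} (hM : M % 4 = 1) :
    VR (Wt ((13 * M : ℤ) : ℚ) ((128 * M ^ 2 : ℤ) : ℚ)) ((WM M).map (Int.castRingHom ℚ)) 2 (-4 * M) 1
      4 := by
  obtain ⟨k, hk⟩ : ∃ k, M = 4 * k + 1 := ⟨M / 4, by omega⟩
  have ha : (((M - 1) / 4 : ℤ) : ℚ) = (M - 1) / 4 := by
    have : (M - 1) / 4 = k := by omega
    rw [this, hk]
    push_cast
    ring
  have hb : (((9 * M ^ 2 - 1) / 2 : ℤ) : ℚ) = (9 * M ^ 2 - 1) / 2 := by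
    have h1 : 9 * M ^ 2 - 1 = 2 * (72 * k ^ 2 + 36 * k + 4) := by rw [hk]; ring
    have : (9 * M ^ 2 - 1) / 2 = 72 * k ^ 2 + 36 * k + 4 := by omega
    rw [this, hk]
    push_cast
    ring
  have hc : (((23 * M ^ 3 + 1) / 4 : ℤ) : ℚ) = (23 * M ^ 3 + 1) / 4 := by
    have h1 : 23 * M ^ 3 + 1 = 4 * (368 * k ^ 3 + 276 * k ^ 2 + 69 * k + 6) := by rw [hk]; ring
    have : (23 * M ^ 3 + 1) / 4 = 368 * k ^ 3 + 276 * k ^ 2 + 69 * k + 6 := by omega
    rw [this, hk]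
    push_cast
    ring
  refine ⟨two_ne_zero, ?_, ?_, ?_, ?_, ?_⟩
  · show (2 : ℚ) * ((1 : ℤ) : ℚ) = 0 + 2 * 1
    norm_num
  · show (2 : ℚ) ^ 2 * (((M - 1) / 4 : ℤ) : ℚ) = ((13 * M : ℤ) : ℚ) - 1 * 0 + 3 * (-4 * M) - 1 ^ 2
    rw [ha]
    push_cast
    ring
  · show (2 : ℚ) ^ 3 * ((1 : ℤ) : ℚ) = 0 + (-4 * M) * 0 + 2 * 4
    norm_num
  · show (2 : ℚ) ^ 4 * (((9 * M ^ 2 - 1) / 2 : ℤ) : ℚ) = ((128 * M ^ 2 : ℤ) : ℚ) - 1 * 0 +
      2 * (-4 * M) * ((13 * M : ℤ) : ℚ) - (4 + (-4 * M) * 1) * 0 + 3 * (-4 * (M : ℚ)) ^ 2 - 2 * 1 * 4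
    rw [hb]
    push_cast
    ring
  · show (2 : ℚ) ^ 6 * ((-((23 * M ^ 3 + 1) / 4) : ℤ) : ℚ) = 0 + (-4 * M) * ((128 * M ^ 2 : ℤ) : ℚ) +
      (-4 * M) ^ 2 * ((13 * M : ℤ) : ℚ) + (-4 * (M : ℚ)) ^ 3 - 4 * 0 - 4 ^ 2 - (-4 * M) * 4 * 0
    rw [Int.cast_neg, hc]
    push_cast
    ring

/-- not the square of a rational number -/
theorem not_sq_aux {n : ℤ} (c : ℤ) (hc : ¬ IsSquare c) (hn : n ≠ 0) :
    ¬ IsSquare (((c * n ^ 2 : ℤ)) : ℚ) := by
  rw [Rat.isSquare_intCast_iff]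
  rintro ⟨r, hr⟩
  apply hc
  have h1 : n ∣ r := by
    have : n ^ 2 ∣ r ^ 2 := ⟨c, by rw [sq r, ← hr]; ring⟩
    exact (Int.pow_dvd_pow_iff two_ne_zero).1 this
  obtain ⟨t, rfl⟩ := h1
  refine ⟨t, ?_⟩
  apply mul_right_cancel₀ (pow_ne_zero 2 hn)
  rw [hr]
  ring

/-- the algebraic side -/
theorem alg_side (s1 : S_SEL1) (s2 : S_SEL2) {m p : ℕ} (H : Hy m p) :
    (∀ (n : ℕ) (x : D.Sha ((WM ((p * m : ℕ) : ℤ)).map (Int.castRingHom ℚ))),
      2 ^ n • x = 0 → x = 0) ∧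
    Finite ((WM ((p * m : ℕ) : ℤ)).map (Int.castRingHom ℚ)).toAffine.Point ∧
    ∃ k, Odd k ∧ Nat.card ((WM ((p * m : ℕ) : ℤ)).map (Int.castRingHom ℚ)).toAffine.Point =
      2 * k := by
  set M : ℤ := ((p * m : ℕ) : ℤ) with hM
  have hMe : M = (p : ℤ) * m := by rw [hM]; push_cast; rfl
  have h4 : M % 4 = 1 := by
    have h1 := H.m4
    have h2 := H.p8
    have h3 : (p * m) % 4 = 1 := by
      rw [Nat.mul_mod, h1]
      omega
    omega
  have hM0 : M ≠ 0 := by intro h; rw [h] at h4; norm_num at h4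
  have hM2 : 0 < M ^ 2 := by positivity
  have hb : 128 * M ^ 2 ≠ 0 := by positivity
  have hab : (13 * M) ^ 2 - 4 * (128 * M ^ 2) < 0 := by nlinarith
  obtain ⟨hfin, hcard⟩ := card_sel (a := 13 * M) (b := 128 * M ^ 2) hb hab
    (S1 := {1, 2}) (S2 := {1, -7}) (Set.toFinite _) (Set.toFinite _) (by
      intro z hz hz0 hpc
      have := s1 m p H z hz hz0 (by
        intro l _
        have h5 := hpc l
        rw [hMe] at h5
        exact h5)
      simpa using this) (by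
      intro z hz hpc
      have := s2 m p H z hz (by
        intro l _
        have h5 := hpc l
        rw [hMe] at h5
        exact h5)
      simpa using this)
  have hc4 : Nat.card (selCoc (Wt ((13 * M : ℤ) : ℚ) ((128 * M ^ 2 : ℤ) : ℚ))) ≤ 4 := by
    refine hcard.trans ?_
    rw [Set.ncard_pair (by norm_num), Set.ncard_pair (by norm_num)]
  have hbQ : ((128 * M ^ 2 : ℤ) : ℚ) ≠ 0 := by exact_mod_cast hb
  have habQ : ((13 * M : ℤ) : ℚ) ^ 2 - 4 * ((128 * M ^ 2 : ℤ) : ℚ) ≠ 0 := by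
    exact_mod_cast hab.ne
  have hsq : ¬ IsSquare (((13 * M : ℤ) : ℚ) ^ 2 - 4 * ((128 * M ^ 2 : ℤ) : ℚ)) := by
    have e : ((13 * M : ℤ) : ℚ) ^ 2 - 4 * ((128 * M ^ 2 : ℤ) : ℚ) = (((-343) * M ^ 2 : ℤ) : ℚ) := by
      push_cast; ring
    rw [e]
    exact not_sq_aux _ (by decide) hM0
  have hbs : ¬ IsSquare ((128 * M ^ 2 : ℤ) : ℚ) := not_sq_aux _ (by
    rintro ⟨r, hr⟩
    have k1 : r < 12 := by nlinarith
    have k2 : -12 < r := by nlinarith
    interval_cases r <;> omega) hM0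
  obtain ⟨c1, c2, k, hk, c3⟩ := count hbQ habQ hsq hbs hfin hc4
  have hv := vr_WM h4
  have hD : ((WM M).map (Int.castRingHom ℚ)).Δ ≠ 0 := by
    rw [WeierstrassCurve.map_Δ]
    have h5 : (WM M).Δ ≠ 0 := by
      intro h6
      have h7 := hv.delta
      rw [WeierstrassCurve.map_Δ, h6, map_zero, mul_zero] at h7
      have h8 : (Wt ((13 * M : ℤ) : ℚ) ((128 * M ^ 2 : ℤ) : ℚ)).Δ =
        16 * ((128 * M ^ 2 : ℤ) : ℚ) ^ 2 * (((13 * M : ℤ) : ℚ) ^ 2 - 4 * ((128 * M ^ 2 : ℤ) : ℚ)) := by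
        simp only [WeierstrassCurve.Δ, WeierstrassCurve.b₂, WeierstrassCurve.b₄,
          WeierstrassCurve.b₆, WeierstrassCurve.b₈, Wt]
        ring
      rw [h8] at h7
      exact mul_ne_zero (mul_ne_zero (by norm_num) (pow_ne_zero 2 hbQ)) habQ h7
    show (((WM M).Δ : ℤ) : ℚ) ≠ 0
    exact_mod_cast h5
  let e := hv.equiv hD
  refine ⟨fun n x hx => sha_two_pow hv hD c1 n x hx, ?_, k, hk, ?_⟩
  · exact Finite.of_equiv _ e.toEquiv.symm
  · rw [← c3]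
    exact Nat.card_congr e.toEquiv

end Pool.Agent.Y700
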