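import Pool.Agent.Y700.Lm
import Pool.Agent.Y700.Sel
import Pool.Agent.Y687.Main

/-!
The `2`-part of the formula of Birch and Swinnerton-Dyer for the twists of `X_0(14)`.
-/

set_option autoImplicit false
set_option linter.style.haveILetI false

open Finset

namespace Pool.Agent.Y700

open Pool.Agent.W97.MT (ap E14 affCount IsGloballyMinimal)
open Pool.Agent.Y687 (Inert Split cnt SS)
open Pool.Agent.TH841.SH (D.Sha)

open scoped Classical in
/-- the product of the Tamagawa numbers at the primes dividing the discriminant -/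
noncomputable def tamProd (W : WeierstrassCurve ℤ) : ℕ :=
  ∏ p ∈ W.Δ.natAbs.primeFactors, if h : p.Prime then (haveI := Fact.mk h; tam W p) else 1

/-- the curve over `ℚ` -/
abbrev EQ (W : WeierstrassCurve ℤ) : WeierstrassCurve ℚ := W.map (Int.castRingHom ℚ)

theorem cnt_affCount {m p : ℕ} [Fact p.Prime] (h2 : p ≠ 2) (h3 : p ≠ 3) (hm : m % 4 = 1)
    (hpm : ¬ p ∣ m) : cnt (5805 * (m : ℤ) ^ 2) (-285714 * (m : ℤ) ^ 3) p = affCount (WM m) p := by
  have h4 := Pool.Agent.Y687.cnt_twist 5805 (-285714) m p h2 hm hpm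
  rw [Pool.Agent.Y687.cnt_E14 p Fact.out h2 h3, ← ap_odd hm p h2 hpm] at h4
  unfold ap at h4
  omega

theorem odd_div_odd {a b : ℤ} (ha : Odd a) (hb : Odd b) :
    (a / b : ℚ) ≠ 0 ∧ padicValRat 2 (a / b : ℚ) = 0 := by
  haveI : Fact (Nat.Prime 2) := ⟨Nat.prime_two⟩
  have ha0 : a ≠ 0 := by rintro rfl; exact absurd ha (by decide)
  have hb0 : b ≠ 0 := by rintro rfl; exact absurd hb (by decide)
  have haQ : (a : ℚ) ≠ 0 := by exact_mod_cast ha0
  have hbQ : (b : ℚ) ≠ 0 := by exact_mod_cast hb0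
  refine ⟨div_ne_zero haQ hbQ, ?_⟩
  rw [padicValRat.div haQ hbQ, padicValRat.of_int, padicValRat.of_int,
    padicValInt.eq_zero_of_not_dvd, padicValInt.eq_zero_of_not_dvd]
  · rfl
  · intro h
    rw [← Int.not_even_iff_odd] at hb
    exact hb (even_iff_two_dvd.2 h)
  · intro h
    rw [← Int.not_even_iff_odd] at ha
    exact ha (even_iff_two_dvd.2 h)

theorem odd_of_val_one {n : ℕ} (h : padicValNat 2 n = 1) : ∃ k, Odd k ∧ n = 2 * k := by
  haveI : Fact (Nat.Prime 2) := ⟨Nat.prime_two⟩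
  have hn : n ≠ 0 := by rintro rfl; simp at h
  obtain ⟨k, hk⟩ : 2 ∣ n := dvd_of_one_le_padicValNat (by omega)
  have hk0 : k ≠ 0 := by rintro rfl; exact hn hk
  refine ⟨k, ?_, hk⟩
  rw [hk, padicValNat.mul (by norm_num) hk0, padicValNat_self] at h
  by_contra hodd
  rw [Nat.not_odd_iff_even, even_iff_two_dvd] at hodd
  have := one_le_padicValNat_of_dvd hk0 hodd
  omega

/-- the `2`-adic valuation of the sum of the symbols -/
theorem SS_val {s : ℚ → ℤ} (hs : Pool.Agent.Y687.Symb s (fun q => ap E14 q)) {p : ℕ} {S : Finset ℕ}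
    (hp : Split p) (hS : ∀ q ∈ S, Inert q)
    (h8 : ¬ (8 : ℤ) ∣ ap E14 p - 2 * jacobiSym p (∏ q ∈ S, q)) :
    ∃ o : ℤ, Odd o ∧ SS s (p * ∏ q ∈ S, q) (p * ∏ q ∈ S, q) = 2 ^ (S.card + 2) * o := by
  obtain ⟨pp, p8, p7⟩ := hp
  haveI : Fact p.Prime := ⟨pp⟩
  obtain ⟨k1, k2⟩ := Pool.Agent.Y687.SS_facts p pp p8 p7
  have hpS : p ∉ S := by
    intro h
    have := (hS p h).2.1
    omega
  obtain ⟨c, hc⟩ := Pool.Agent.Y687.sum_split hs p pp p8 k1 k2 S
    (fun q hq => Pool.Agent.Y687.II_facts q (hS q hq).1 (hS q hq).2.1 (hS q hq).2.2) hpS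
  have hcop : jacobiSym p (∏ q ∈ S, q) = 1 ∨ jacobiSym p (∏ q ∈ S, q) = -1 := by
    refine jacobiSym.eq_one_or_neg_one ?_
    rw [Int.gcd_natCast_natCast]
    refine (Nat.Prime.coprime_iff_not_dvd pp).2 ?_
    intro h
    have h1 := (hS p (Pool.Agent.Y687.dvd_prod_primes (fun q hq => (hS q hq).1) pp h)).2.1
    omega
  obtain ⟨x, hx⟩ : ∃ x : ℤ, ap E14 p - 2 * jacobiSym p (∏ q ∈ S, q) = 4 * x := by
    obtain ⟨y, hy⟩ := k2
    have hy' : ap E14 p - 2 = 4 * y := hy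
    rcases hcop with h | h <;> rw [h]
    · exact ⟨y, by linarith⟩
    · exact ⟨y + 1, by linarith⟩
  have hxo : Odd x := by
    rw [← Int.not_even_iff_odd]
    rintro ⟨y, hy⟩
    apply h8
    rw [hx, hy]
    exact ⟨y, by ring⟩
  have hc' : SS s (p * ∏ q ∈ S, q) (p * ∏ q ∈ S, q) =
      2 ^ S.card * (ap E14 p - 2 * jacobiSym p (∏ q ∈ S, q)) + 2 ^ (S.card + 3) * c := by
    linear_combination hc
  refine ⟨x + 2 * c, ?_, ?_⟩
  · obtain ⟨y, hy⟩ := hxo
    exact ⟨y + c, by rw [hy]; ring⟩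
  · rw [hc', hx, pow_add, pow_add]
    ring

/-- the Tamagawa numbers -/
theorem tam_val (tE : S_E0) (tIN : S_TIN) (tSP : S_TSP) (t2 : S_T2) (t7 : S_T7) {p : ℕ}
    {S : Finset ℕ} (hp : Split p) (hS : ∀ q ∈ S, Inert q)
    (H : Pool.Agent.Y687.Hyp (∏ q ∈ S, q) p) :
    ∃ o : ℕ, Odd o ∧ tamProd (WM ((p * ∏ q ∈ S, q : ℕ) : ℤ)) = 2 ^ (S.card + 3) * o := by
  classical
  haveI : Fact p.Prime := ⟨hp.1⟩
  have hSp : ∀ q ∈ S, q.Prime := fun q hq => (hS q hq).1
  set M : ℕ := p * ∏ q ∈ S, q with hM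
  have h4 : M % 4 = 1 := by
    have h1 := H.m4
    have h2 := H.p8
    rw [hM, Nat.mul_mod, h1]
    omega
  have h4' : (M : ℤ) % 4 = 1 := by omega
  have hM0 : M ≠ 0 := by omega
  have hpS : p ∉ S := by
    intro h
    have := (hS p h).2.1
    have := hp.2.1
    omega
  have hpf : (WM (M : ℤ)).Δ.natAbs.primeFactors = {2, 7} ∪ insert p S := by
    ext l
    have hΔ : (WM (M : ℤ)).Δ ≠ 0 := by
      rw [Delta_WM h4']
      have : (M : ℤ) ≠ 0 := by exact_mod_cast hM0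
      positivity
    rw [Nat.mem_primeFactors]
    constructor
    · rintro ⟨hl, hd, -⟩
      have hd' : (l : ℤ) ∣ (WM (M : ℤ)).Δ := Int.natCast_dvd.2 hd
      rw [dvd_Delta h4 hl] at hd'
      rcases hd' with h | h
      · rw [show (14 : ℕ) = 2 * 7 by norm_num, hl.dvd_mul] at h
        rcases h with h | h
        · have := (Nat.prime_dvd_prime_iff_eq hl Nat.prime_two).1 h
          simp [this]
        · have := (Nat.prime_dvd_prime_iff_eq hl (by norm_num : Nat.Prime 7)).1 h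
          simp [this]
      · rw [hM, hl.dvd_mul] at h
        rcases h with h | h
        · have := (Nat.prime_dvd_prime_iff_eq hl hp.1).1 h
          simp [this]
        · have := Pool.Agent.Y687.dvd_prod_primes hSp hl h
          simp [this]
    · intro h
      simp only [Finset.mem_union, Finset.mem_insert, Finset.mem_singleton] at h
      have key : l.Prime ∧ (l ∣ 14 ∨ l ∣ M) := by
        rcases h with (rfl | rfl) | rfl | h
        · exact ⟨Nat.prime_two, Or.inl (by norm_num)⟩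
        · exact ⟨by norm_num, Or.inl (by norm_num)⟩
        · exact ⟨hp.1, Or.inr (Dvd.intro _ rfl)⟩
        · exact ⟨hSp l h, Or.inr (dvd_mul_of_dvd_right (Finset.dvd_prod_of_mem _ h) _)⟩
      refine ⟨key.1, ?_, by simpa using hΔ⟩
      exact Int.natCast_dvd.1 ((dvd_Delta h4 key.1).2 key.2)
  set F : ℕ → ℕ := fun l => if h : l.Prime then (haveI := Fact.mk h; tam (WM (M : ℤ)) l) else 1
    with hF
  have hprod : tamProd (WM (M : ℤ)) = F 2 * F 7 * (F p * ∏ q ∈ S, F q) := by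
    have e : tamProd (WM (M : ℤ)) = ∏ l ∈ (WM (M : ℤ)).Δ.natAbs.primeFactors, F l := by
      unfold tamProd
      refine Finset.prod_congr rfl fun l _ => ?_
      simp only [hF]
    rw [e, hpf, Finset.prod_union, Finset.prod_insert hpS, Finset.prod_pair (by norm_num)]
    rw [Finset.disjoint_left]
    intro l hl hl'
    simp only [Finset.mem_insert, Finset.mem_singleton] at hl hl'
    have hp8 := hp.2.1
    have hp7 := hp.2.2
    rcases hl with rfl | rfl <;> rcases hl' with h | h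
    · omega
    · have := (hS _ h).2.1
      omega
    · omega
    · have := (hS _ h).2.1
      omega
  have hF' : ∀ l : ℕ, ∀ (h : Fact l.Prime), F l = tam (WM (M : ℤ)) l := by
    intro l h
    simp only [hF]
    rw [dif_pos h.out]
  have hsqM : Squarefree ((M : ℕ) : ℤ) := H.sqf
  have nsq : ∀ l : ℕ, l.Prime → ¬ ((l : ℤ) ^ 2 ∣ (M : ℤ)) := by
    intro l hl hd
    have h1 := hsqM l (by rw [← sq]; exact hd)
    rw [Int.isUnit_iff] at h1
    have := hl.one_lt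
    omega
  -- the factor at `2`
  obtain ⟨o2, ho2, e2⟩ : ∃ k, Odd k ∧ F 2 = 2 * k := by
    apply odd_of_val_one
    rw [hF' 2 ⟨Nat.prime_two⟩]
    exact t2 tE M h4'
  have h7M : ¬ (7 : ℤ) ∣ (M : ℤ) := by
    intro h
    have h7 : (7 : ℕ) ∣ M := by exact_mod_cast h
    rw [hM, (by norm_num : Nat.Prime 7).dvd_mul] at h7
    rcases h7 with h7 | h7
    · have := (Nat.prime_dvd_prime_iff_eq (by norm_num) hp.1).1 h7
      have h8 := hp.2.1
      omega
    · have := (hS 7 (Pool.Agent.Y687.dvd_prod_primes hSp (by norm_num) h7)).2.1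
      omega
  have o7 : Odd (F 7) := by
    rw [hF' 7 ⟨by norm_num⟩]
    exact t7 tE ⟨by norm_num⟩ M h4' h7M
  have ep : F p = 4 := by
    rw [hF' p ⟨hp.1⟩]
    refine tSP tE M p h4' ?_ H.p7 ?_ (nsq p hp.1) H.sev
    · have := hp.2.1
      omega
    · exact Int.natCast_dvd_natCast.2 (Dvd.intro _ rfl)
  have eS : ∏ q ∈ S, F q = 2 ^ S.card := by
    rw [Finset.prod_congr rfl (g := fun _ => 2), Finset.prod_const]
    intro q hq
    haveI : Fact q.Prime := ⟨hSp q hq⟩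
    have hqm : q ∣ ∏ r ∈ S, r := Finset.dvd_prod_of_mem _ hq
    obtain ⟨n2, n7, n3, -⟩ := H.two q (hSp q hq) hqm
    rw [hF' q ⟨hSp q hq⟩]
    exact tIN tE M q h4' n2 n7 (Int.natCast_dvd_natCast.2 (dvd_mul_of_dvd_right hqm _))
      (nsq q (hSp q hq)) n3
  refine ⟨o2 * F 7, ho2.mul o7, ?_⟩
  rw [hprod, e2, ep, eS, pow_add]
  ring

/-- **the `2`-part of the formula** -/
theorem main (tE : S_E0) (tIN : S_TIN) (tSP : S_TSP) (t2 : S_T2) (t7 : S_T7) (tO : S_OMEGA)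
    (s1 : S_SEL1) (s2 : S_SEL2) (tM : S_MIN) {p : ℕ} {S : Finset ℕ} (hp : Split p)
    (hS : ∀ q ∈ S, Inert q) (hN : ¬ 8 ∣ affCount (WM ((∏ q ∈ S, q : ℕ) : ℤ)) p + 1) (W : WeierstrassCurve ℤ)
    (hW : W = WM ((p * ∏ q ∈ S, q : ℕ) : ℤ)) :
    IsGloballyMinimal W ∧ Finite (EQ W).toAffine.Point ∧
    (∀ (n : ℕ) (x : Pool.Agent.TH841.SH.D.Sha (EQ W)), 2 ^ n • x = 0 → x = 0) ∧
    (∃ f, IsL W f) ∧ ∀ f, IsL W f → f 1 ≠ 0 ∧ ∃ u : ℚ, padicValRat 2 u = 0 ∧
      f 1 = (((u : ℝ) * (Omega W * tamProd W / (Nat.card (EQ W).toAffine.Point : ℝ) ^ 2) : ℝ) : ℂ) := by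
  haveI : Fact p.Prime := ⟨hp.1⟩
  have hSp : ∀ q ∈ S, q.Prime := fun q hq => (hS q hq).1
  have hm4 := Pool.Agent.Y687.prod_mod_four hS
  have hpm : ¬ p ∣ ∏ q ∈ S, q := by
    intro h
    have h1 := (hS p (Pool.Agent.Y687.dvd_prod_primes hSp hp.1 h)).2.1
    have := hp.2.1
    omega
  have hp8 := hp.2.1
  have hp3 : p ≠ 3 := by omega
  rw [← cnt_affCount (by omega) hp3 hm4 hpm] at hN
  obtain ⟨H, h8⟩ := Pool.Agent.Y687.main_hyp hp hS hN
  set M : ℕ := p * ∏ q ∈ S, q with hM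
  have h4 : M % 4 = 1 := by
    rw [hM, Nat.mul_mod, hm4]
    omega
  have h4' : (M : ℤ) % 4 = 1 := by omega
  have hsqf : Squarefree ((M : ℕ) : ℤ) := H.sqf
  have hodd : Odd M := Nat.odd_iff.2 (by omega)
  have hp1 := hp.1.one_lt
  have hm0 : 0 < ∏ q ∈ S, q := by omega
  have hM1 : 1 < M := by
    rw [hM]
    nlinarith
  have hnd : ∀ l : ℕ, l.Prime → l ∣ M → l = p ∨ l ∈ S := by
    intro l hl hd
    rw [hM, hl.dvd_mul] at hd
    rcases hd with h | h
    · exact Or.inl ((Nat.prime_dvd_prime_iff_eq hl hp.1).1 h)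
    · exact Or.inr (Pool.Agent.Y687.dvd_prod_primes hSp hl h)
  have h7M : ¬ 7 ∣ M := by
    intro h
    rcases hnd 7 (by norm_num) h with h | h
    · omega
    · have := (hS _ h).2.1
      omega
  have h14 : Nat.Coprime M 14 := by
    rw [show (14 : ℕ) = 2 * 7 by norm_num]
    refine Nat.Coprime.mul_right ?_ ?_
    · rw [Nat.coprime_comm, Nat.Prime.coprime_iff_not_dvd Nat.prime_two]
      omega
    · rw [Nat.coprime_comm, Nat.Prime.coprime_iff_not_dvd (by norm_num)]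
      exact h7M
  obtain ⟨a1, a2, k, hk, a3⟩ := alg_side s1 s2 (m := ∏ q ∈ S, q) (p := p)
    ⟨H.m4, H.pp, H.p8, H.sqf, H.pm, H.two, H.p7, H.sev, H.root⟩
  obtain ⟨s, L, Op, Om, hOp, hOm, g2, g3, hL, hsym, hs⟩ := exists_symb'
  obtain ⟨f, ε, hf, hε, hv⟩ := value hodd (Int.squarefree_natCast.1 hsqf) hM1 h4 h14 hs
  obtain ⟨o1, ho1, e1⟩ := SS_val hsym hp hS h8
  obtain ⟨o3, ho3, e3⟩ := tam_val tE tIN tSP t2 t7 hp hS H
  have hΩ : Omega (WM (M : ℤ)) = 2 * Op / Real.sqrt M := by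
    have := tO L Op Om hOp hOm g2 g3 hL (M : ℤ) h4' (by omega)
    simpa using this
  subst hW
  refine ⟨(tM M h4' hsqf (by exact_mod_cast h7M)).1, a2, a1, ⟨f, hf⟩, ?_⟩
  intro g hg
  rw [hg.unique hf]
  have hMR : (0 : ℝ) < M := by exact_mod_cast (by omega : 0 < M)
  have hsq0 : (Real.sqrt M) ≠ 0 := (Real.sqrt_pos.2 hMR).ne'
  have hεo : Odd ε := by rcases hε with rfl | rfl <;> decide
  obtain ⟨hu0, hu1⟩ := odd_div_odd (a := ε * o1 * (k : ℤ) ^ 2) (b := 3 * (o3 : ℤ))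
    ((hεo.mul ho1).mul ((Int.odd_coe_nat k).2 hk).pow) ((by decide : Odd (3 : ℤ)).mul ((Int.odd_coe_nat o3).2 ho3))
  have ho3' : (o3 : ℝ) ≠ 0 := by
    rintro h
    have : o3 = 0 := by exact_mod_cast h
    rw [this] at ho3
    exact absurd ho3 (by decide)
  have hk' : (k : ℝ) ≠ 0 := by
    rintro h
    have : k = 0 := by exact_mod_cast h
    rw [this] at hk
    exact absurd hk (by decide)
  have ho1' : (o1 : ℝ) ≠ 0 := by
    rintro h
    have : o1 = 0 := by exact_mod_cast h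
    rw [this] at ho1
    exact absurd ho1 (by decide)
  have hε' : (ε : ℝ) ≠ 0 := by rcases hε with rfl | rfl <;> norm_num
  have hSSR : (SS s M M : ℝ) = 2 ^ (S.card + 2) * o1 := by
    rw [e1]
    push_cast
    rfl
  refine ⟨?_, _, hu1, ?_⟩
  · rw [hv]
    rw [Complex.ofReal_ne_zero]
    rw [hSSR]
    have := hOp.ne'
    positivity
  · rw [hv]
    congr 1
    have e4 : (EQ (WM (M : ℤ))).toAffine.Point = ((WM (M : ℤ)).map (Int.castRingHom ℚ)).toAffine.Point :=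
      rfl
    rw [hΩ, hSSR, e3, e4, a3]
    push_cast
    rw [pow_add, pow_add]
    field_simp

end Pool.Agent.Y700
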